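import Pool.Agent.TH746.UM.Main
import Pool.Agent.H721R2.Ivrii.NFinal

set_option autoImplicit false

open MeasureTheory Set Filter Topology Asymptotics
open scoped ContDiff InnerProductSpace
open Pool.Agent.H721R2.Quart Pool.Agent.H721R2.Ivrii

namespace Pool.Agent.TH746.OB

open Pool.Agent.TH746.UM

section I
variable {E : Type*} [NormedAddCommGroup E] [InnerProductSpace ℝ E] [CompleteSpace E]

theorem smoothAt_comp (g : E ≃ᵃⁱ[ℝ] E) {Ω : Set E} {q : E} (h : SmoothAt Ω (g q)) :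
    SmoothAt (g ⁻¹' Ω) q := by
  obtain ⟨F, hF, hz⟩ := h
  refine ⟨F ∘ g, hF.comp g, ?_⟩
  filter_upwards [g.continuous.continuousAt.tendsto.eventually hz] with y hy
  exact hy.comp y (isom_contDiff g ∞).contDiffAt

theorem curv_comp (g : E ≃ᵃⁱ[ℝ] E) {Ω : Set E} {q : E} {κ : ℝ} (h : Curv Ω (g q) κ) :
    Curv (g ⁻¹' Ω) q κ := by
  obtain ⟨F, hF, hz⟩ := h
  refine ⟨F ∘ g, hF.comp g, fun w hw => ?_⟩
  obtain ⟨lin, hlin⟩ : ∃ lin : E →L[ℝ] E,
      lin = (g.linearIsometryEquiv.toContinuousLinearEquiv : E →L[ℝ] E) := ⟨_, rfl⟩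
  have hg : ∀ x, HasFDerivAt g lin x := fun x => by rw [hlin]; exact isom_hasFDerivAt g x
  have h1 : ∀ᶠ x in 𝓝 (g q), ContDiffAt ℝ 3 F x := hF.smooth.eventually (by simp)
  have h2 : ∀ᶠ y in 𝓝 q, fderiv ℝ (F ∘ g) y = (fderiv ℝ F (g y)).comp lin := by
    filter_upwards [g.continuous.continuousAt.tendsto.eventually h1] with y hy
    exact ((hy.differentiableAt (by norm_num)).hasFDerivAt.comp y (hg y)).fderiv
  have hDF : HasFDerivAt (fderiv ℝ F) (fderiv ℝ (fderiv ℝ F) (g q)) (g q) := by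
    have : ContDiffAt ℝ 2 (fderiv ℝ F) (g q) := hF.smooth.fderiv_right (m := 2) (by norm_num)
    exact (this.differentiableAt (by norm_num)).hasFDerivAt
  have h3 : HasFDerivAt (fun y => (fderiv ℝ F (g y)).comp lin)
      (((ContinuousLinearMap.compL ℝ E E ℝ).flip lin).comp
        ((fderiv ℝ (fderiv ℝ F) (g q)).comp lin)) q :=
    ((ContinuousLinearMap.compL ℝ E E ℝ).flip lin).hasFDerivAt.comp q (hDF.comp q (hg q))
  have h4 := (h3.congr_of_eventuallyEq h2).fderiv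
  have hgr := gradient_comp_isom g (hF.smooth.differentiableAt (by norm_num))
  rw [h4]
  change fderiv ℝ (fderiv ℝ F) (g q) (lin w) (lin w) = _
  have h5 : ⟪gradient F (g q), lin w⟫_ℝ = 0 := by
    rw [hgr] at hw
    rw [← g.linearIsometryEquiv.inner_map_map, LinearIsometryEquiv.apply_symm_apply] at hw
    rw [hlin]
    exact hw
  have h6 : ‖lin w‖ = ‖w‖ := by
    rw [hlin]
    exact g.linearIsometryEquiv.norm_map w
  rw [hz _ h5, h6, hgr, LinearIsometryEquiv.norm_map]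

theorem umbilic_comp (g : E ≃ᵃⁱ[ℝ] E) {Ω : Set E} {q : E} (h : Umbilic Ω (g q)) :
    Umbilic (g ⁻¹' Ω) q := by
  obtain ⟨κ, h⟩ := h
  exact ⟨κ, curv_comp g h⟩

theorem vertex_comp (g : E ≃ᵃⁱ[ℝ] E) {Ω : Set E} {q : E} (h : Vertex Ω (g q)) :
    Vertex (g ⁻¹' Ω) q := by
  obtain ⟨κ, h1, h2⟩ := h
  have hf : frontier (g ⁻¹' Ω) = g ⁻¹' frontier Ω :=
    (g.toHomeomorph.preimage_frontier Ω).symm
  have ht : Tendsto g (𝓝[frontier (g ⁻¹' Ω)] q) (𝓝[frontier Ω] (g q)) := by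
    refine tendsto_nhdsWithin_iff.2 ⟨?_, ?_⟩
    · exact (g.continuous.tendsto q).mono_left nhdsWithin_le_nhds
    · filter_upwards [self_mem_nhdsWithin] with x hx
      rw [hf] at hx
      exact hx
  refine ⟨fun x => κ (g x), ?_, ?_⟩
  · filter_upwards [ht.eventually h1] with x hx
    exact curv_comp g hx
  · have h3 := h2.comp_tendsto ht
    refine h3.trans_isBigO (IsBigO.of_bound 1 (Eventually.of_forall fun x => ?_))
    simp only [Function.comp_apply, one_mul]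
    rw [← dist_eq_norm, ← dist_eq_norm, g.dist_map]

end I

theorem round_comp {d : ℕ} (g : EuclideanSpace ℝ (Fin d) ≃ᵃⁱ[ℝ] EuclideanSpace ℝ (Fin d))
    {Ω : Set (EuclideanSpace ℝ (Fin d))} {q : EuclideanSpace ℝ (Fin d)} (h : Round Ω (g q)) :
    Round (g ⁻¹' Ω) q :=
  ⟨smoothAt_comp g h.1, fun hd => vertex_comp g (h.2.1 hd), fun hd => umbilic_comp g (h.2.2 hd)⟩

/-- The condition is invariant under the symmetries of the table. -/
theorem round_map {d : ℕ} {g : EuclideanSpace ℝ (Fin d) ≃ᵃⁱ[ℝ] EuclideanSpace ℝ (Fin d)}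
    {Ω : Set (EuclideanSpace ℝ (Fin d))} (hg : g ⁻¹' Ω = Ω) {q : EuclideanSpace ℝ (Fin d)}
    (h : Round Ω q) : Round Ω (g q) := by
  have h1 : Round Ω (g.symm (g q)) := by rw [g.symm_apply_apply]; exact h
  have h2 := round_comp g.symm h1
  rwa [preimage_symm hg] at h2

end Pool.Agent.TH746.OB
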