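import Pool.Agent.TH746.OB.Fam
import Pool.Agent.TH746.OB.Inv
import Pool.Agent.TH746.Final

set_option autoImplicit false

open MeasureTheory Set Filter Topology Asymptotics
open scoped ContDiff InnerProductSpace NNReal
open Pool.Agent.H721R2.Quart Pool.Agent.H721R2.Ivrii

namespace Pool.Agent.TH746.OB

open Pool.Agent.TH746 Pool.Agent.TH746.UM

/-- A smooth map carries negligible sets to negligible sets. -/
theorem img_null {Z Y : Type*} [NormedAddCommGroup Z] [NormedSpace ℝ Z] [SecondCountableTopology Z]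
    [MeasurableSpace Z] [BorelSpace Z] [NormedAddCommGroup Y] [NormedSpace ℝ Y]
    [MeasurableSpace Y] [BorelSpace Y] {f : Z → Y} {A : Set Z} {s : ℝ} (hs : 0 ≤ s)
    (hf : ∀ z ∈ A, ContDiffAt ℝ 1 f z) (h : μH[s] A = 0) : μH[s] (f '' A) = 0 := by
  refine null_of_locally_null (μH[s]) f A fun z hz => ?_
  obtain ⟨K, t, ht, hK⟩ := (hf z hz).exists_lipschitzOnWith
  refine ⟨f '' (A ∩ t), ?_, ?_⟩
  · have h1 := (hK.mono (inter_subset_right (s := A))).hausdorffMeasure_image_le (d := s) hs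
    have h2 : μH[s] (A ∩ t) = 0 := measure_mono_null inter_subset_left h
    rw [h2, mul_zero] at h1
    exact nonpos_iff_eq_zero.mp h1
  · filter_upwards [ht] with w hw hwA
    exact ⟨w, ⟨hwA, hw⟩, rfl⟩

variable {d : ℕ}

/-- The phase points of the orbits with at most one non-round bounce. -/
def PerOne (Γ : Set (EuclideanSpace ℝ (Fin d) ≃ᵃⁱ[ℝ] EuclideanSpace ℝ (Fin d)))
    (Ω : Set (EuclideanSpace ℝ (Fin d))) :
    Set (EuclideanSpace ℝ (Fin d) × EuclideanSpace ℝ (Fin d)) :=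
  {z | ∃ g ∈ Γ, ∃ (n : ℕ) (p u : ℕ → EuclideanSpace ℝ (Fin d)), OrbitMod Ω g n p u ∧
    (p 0, u 0) = z ∧ (∀ k, SmoothAt Ω (p k)) ∧ {k | k < n ∧ ¬ Round Ω (p k)}.ncard ≤ 1}

/-- The phase points after `m` bounces of the orbits all of whose bounces are round but the first. -/
def Pf (Ω : Set (EuclideanSpace ℝ (Fin d)))
    (g : EuclideanSpace ℝ (Fin d) ≃ᵃⁱ[ℝ] EuclideanSpace ℝ (Fin d)) (n m : ℕ) :
    Set (EuclideanSpace ℝ (Fin d) × EuclideanSpace ℝ (Fin d)) :=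
  (fun w : (ℕ → EuclideanSpace ℝ (Fin d)) × (ℕ → EuclideanSpace ℝ (Fin d)) => (w.1 m, w.2 m)) ''
    {w | OrbitMod Ω g n w.1 w.2 ∧ (∀ k, SmoothAt Ω (w.1 k)) ∧
      ∀ k, 1 ≤ k → k < n → Round Ω (w.1 k)}

theorem pf_null (hd : 2 ≤ d) {Ω : Set (EuclideanSpace ℝ (Fin d))}
    {g : EuclideanSpace ℝ (Fin d) ≃ᵃⁱ[ℝ] EuclideanSpace ℝ (Fin d)} (hg : g ⁻¹' Ω = Ω) {n m : ℕ}
    (hm : m ≤ n) : μH[((2 * d - 2 : ℕ) : ℝ)] (Pf Ω g n m) = 0 := by
  apply null_of_locally_null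
  rintro ⟨p, u⟩ ⟨hor, hs, hr⟩
  obtain ⟨a, b, C, ha, hb, -, hev⟩ := exists_schn hg hor hs
  have hfr : Module.finrank ℝ ((ℝ ∙ a)ᗮ × (ℝ ∙ b)ᗮ) = 2 * d - 2 := by
    have h1 := Submodule.finrank_add_finrank_orthogonal (ℝ ∙ a)
    have h2 := Submodule.finrank_add_finrank_orthogonal (ℝ ∙ b)
    rw [finrank_span_singleton ha, finrank_euclideanSpace_fin] at h1
    rw [finrank_span_singleton hb, finrank_euclideanSpace_fin] at h2
    rw [Module.finrank_prod]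
    omega
  have h0 := fam_null2 (g := g) hd (μH[Module.finrank ℝ ((ℝ ∙ a)ᗮ × (ℝ ∙ b)ᗮ)]) hor.pos C
  obtain ⟨A, hA⟩ : ∃ A, A = {z | z ∈ C.U ∧ C.x n z = g (C.x 0 z) ∧
    C.e n z = g.linearIsometryEquiv (C.e 0 z) ∧ ∀ k, 1 ≤ k → k < n → Round Ω (C.x k z)} :=
    ⟨_, rfl⟩
  rw [← hA, hfr] at h0
  refine ⟨(fun z => (C.x m z, C.e m z)) '' A, ?_, ?_⟩
  · refine img_null (Nat.cast_nonneg _) (fun z hz => ?_) h0
    rw [hA] at hz
    exact ((C.cx m hm z hz.1).prodMk (C.ce m hm z hz.1)).of_le (by norm_cast)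
  · filter_upwards [hev] with w hw hor'
    obtain ⟨z, hzU, hz⟩ := hw hor'.1
    refine ⟨z, ?_, ?_⟩
    · rw [hA]
      refine ⟨hzU, ?_, ?_, fun k hk1 hk => ?_⟩
      · rw [(hz n le_rfl).1, (hz 0 (Nat.zero_le _)).1]
        have := hor'.1.perp 0
        rwa [zero_add] at this
      · rw [(hz n le_rfl).2, (hz 0 (Nat.zero_le _)).2]
        have := hor'.1.peru 0
        rwa [zero_add] at this
      · rw [(hz k hk.le).1]
        exact hor'.2.2 k hk1 hk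
    · simp only
      rw [(hz m hm).1, (hz m hm).2]

theorem perOne_null (hd : 2 ≤ d) (Ω : Set (EuclideanSpace ℝ (Fin d)))
    (Γ : Set (EuclideanSpace ℝ (Fin d) ≃ᵃⁱ[ℝ] EuclideanSpace ℝ (Fin d)))
    (hΓ : Γ.Countable) (hinv : ∀ g ∈ Γ, g ⁻¹' Ω = Ω) :
    μH[((2 * d - 2 : ℕ) : ℝ)] (PerOne Γ Ω) = 0 := by
  refine measure_mono_null (t := ⋃ g ∈ Γ, ⋃ n : ℕ, ⋃ m : ℕ, ⋃ (_ : m ≤ n),
    {z : EuclideanSpace ℝ (Fin d) × EuclideanSpace ℝ (Fin d) |
      (g z.1, g.linearIsometryEquiv z.2) ∈ Pf Ω g n m}) ?_ ?_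
  · rintro z ⟨g, hgΓ, n, p, u, h, rfl, hs, hcard⟩
    have hg := hinv g hgΓ
    have hpos := h.pos
    obtain ⟨a, han, ha⟩ : ∃ a < n, ∀ k < n, k ≠ a → Round Ω (p k) := by
      by_cases hne : ∃ a, a < n ∧ ¬ Round Ω (p a)
      · obtain ⟨a, ha1, ha2⟩ := hne
        refine ⟨a, ha1, fun k hk hka => ?_⟩
        by_contra hcon
        have hfin : {k | k < n ∧ ¬ Round Ω (p k)}.Finite :=
          (Set.finite_Iio n).subset fun k hk => hk.1
        exact hka ((Set.ncard_le_one hfin).1 hcard k ⟨hk, hcon⟩ a ⟨ha1, ha2⟩)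
      · push Not at hne
        exact ⟨0, hpos, fun k hk _ => hne k hk⟩
    refine mem_iUnion₂.2 ⟨g, hgΓ, mem_iUnion.2 ⟨n, mem_iUnion.2 ⟨n - a,
      mem_iUnion.2 ⟨Nat.sub_le _ _, ?_⟩⟩⟩⟩
    refine ⟨(fun k => p (k + a), fun k => u (k + a)), ⟨OrbitMod.shift' h a, fun k => hs _, ?_⟩, ?_⟩
    · intro k hk1 hk
      change Round Ω (p (k + a))
      rcases Nat.lt_or_ge (k + a) n with h1 | h1
      · exact ha _ h1 (by omega)
      · have h2 : k + a = (k + a - n) + n := by omega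
        rw [h2, h.perp]
        exact round_map hg (ha _ (by omega) (by omega))
    · simp only
      have h1 : n - a + a = 0 + n := by omega
      rw [h1, h.perp, h.peru]
  · refine (measure_biUnion_null_iff hΓ).2 fun g hg => measure_iUnion_null fun n =>
      measure_iUnion_null fun m => measure_iUnion_null fun hm => ?_
    exact pull g (2 * d - 2) (Pf Ω g n m) (pf_null hd (hinv g hg) hm)

end Pool.Agent.TH746.OB
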