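import Pool.Agent.W567.IV.Back2

/-! Special chains whose initial velocity has a given leading coefficient `c` of its square. -/

set_option autoImplicit false

open scoped Classical

set_option linter.unusedSectionVars false

namespace Pool.Agent.TH746.OB

open Pool.Agent.W567.IV

variable {n : ℕ} {L : Type} [Field L] [Algebra ℂ L]

lemma step_coreC (S : Sph n) (hρ : 0 < S.ρ) (l : Line n (LaurentSeries L)) (w : Fin n → L)
    (m e : ℕ) (he : 1 ≤ e) (c α b0 δ0 : L) (hc : c ≠ 0) (q' B Δ : LaurentSeries L)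
    (hq : l.2 ⬝ᵥ l.2 = kap ^ 2 * q') (hq' : Eqv q' c)
    (hv : ∀ k, Eqv (kap ^ m * l.2 k) (α * w k))
    (hb : (l.1 - S.ctr _) ⬝ᵥ l.2 = kap * B) (hB : Eqv (kap ^ e * B) b0)
    (hu : ∀ k, Eqv (kap ^ (m + e + 1) * (l.1 - S.ctr (LaurentSeries L)) k) 0)
    (hΔ : Eqv (kap ^ e * Δ) δ0) :
    (∀ k, Eqv (kap ^ (m + e + 1) * YY S (kap * Δ) l k) (((δ0 - b0) * c⁻¹ * α) * w k)) ∧
    (∀ k, Eqv (kap ^ (m + 2 * e) * (RR S (kap * Δ) l).2 k)
      ((-(2 * δ0 * ((δ0 - b0) * c⁻¹ * α) / radL L S)) * w k)) := by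
  have hk : (kap : LaurentSeries L) ≠ 0 := kap_ne
  have hq0 : q' ≠ 0 := hq'.ne hc
  have h1 : ∀ k, Eqv (kap ^ (m + e + 1) * YY S (kap * Δ) l k) (((δ0 - b0) * c⁻¹ * α) * w k) := by
    intro k
    have e1 : kap ^ (m + e + 1) * YY S (kap * Δ) l k =
        kap ^ (m + e + 1) * (l.1 - S.ctr (LaurentSeries L)) k +
          (kap ^ e * Δ - kap ^ e * B) * q'⁻¹ * (kap ^ m * l.2 k) := by
      simp only [YY, tau, Pi.add_apply, Pi.smul_apply, smul_eq_mul]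
      rw [hb, hq]
      field_simp
      ring
    rw [e1]
    have e2 : ((δ0 - b0) * c⁻¹ * α) * w k = 0 + (δ0 - b0) * c⁻¹ * (α * w k) := by
      ring
    rw [e2]
    exact (hu k).add (((hΔ.sub hB).mul (hq'.inv hc)).mul (hv k))
  refine ⟨h1, ?_⟩
  intro k
  have hr : S.rad (LaurentSeries L) ≠ 0 := rad_ne S hρ
  have hrL : radL L S ≠ 0 := radL_ne S hρ
  have e1 : kap ^ (m + 2 * e) * (RR S (kap * Δ) l).2 k =
      kap ^ (2 * e) * (kap ^ m * l.2 k) -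
        HahnSeries.C 2 * (S.rad (LaurentSeries L))⁻¹ * (kap ^ e * Δ) * (kap ^ (m + e + 1) * YY S (kap * Δ) l k) := by
    have h2 : (HahnSeries.C 2 : LaurentSeries L) = 2 := map_ofNat _ 2
    rw [h2]
    simp only [RR, Pi.sub_apply, Pi.smul_apply, smul_eq_mul]
    field_simp
    ring
  rw [e1]
  have e2 : (-(2 * δ0 * ((δ0 - b0) * c⁻¹ * α) / radL L S)) * w k =
      0 - 2 * (radL L S)⁻¹ * δ0 * (((δ0 - b0) * c⁻¹ * α) * w k) := by
    rw [div_eq_mul_inv]; ring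
  rw [e2]
  refine Eqv.sub ?_ ((((eqv_C 2).mul ((eqv_rad S).inv hrL)).mul hΔ).mul (h1 k))
  exact eqv_kap_pow_mul (hv k).mem (by omega)

/-- large nearly isotropic states -/
structure LgC (c : L) (w : Fin n → L) (O : Fin n → ℝ) (m e : ℕ) (α β : L)
    (l : Line n (LaurentSeries L)) : Prop where
  he : 1 ≤ e
  hem : e ≤ m
  hα : α ≠ 0
  hβ : β ≠ 0
  hv : ∀ k, Eqv (kap ^ m * l.2 k) (α * w k)
  hB : ∃ B, (l.1 - cv (LaurentSeries L) O) ⬝ᵥ l.2 = kap * B ∧ Eqv (kap ^ e * B) β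
  hY : ∀ k, kap ^ (m + e) * (l.1 - cv (LaurentSeries L) O) k ∈ OO L
  ha : (l.1 - cv (LaurentSeries L) O) ⬝ᵥ (l.1 - cv (LaurentSeries L) O) ∈ OO L
  hq : ∃ q', l.2 ⬝ᵥ l.2 = kap ^ 2 * q' ∧ Eqv q' c

/-- states from which a reflection in a sphere with a different centre is possible -/
structure PreC (c : L) (w : Fin n → L) (O : Fin n → ℝ) (m : ℕ) (α : L)
    (l : Line n (LaurentSeries L)) : Prop where
  hα : α ≠ 0
  hv : ∀ k, Eqv (kap ^ m * l.2 k) (α * w k)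
  hB : Eqv (kap ^ m * ((l.1 - cv (LaurentSeries L) O) ⬝ᵥ l.2)) 0
  hY : ∀ k, kap ^ (2 * m + 1) * (l.1 - cv (LaurentSeries L) O) k ∈ OO L
  ha : (l.1 - cv (LaurentSeries L) O) ⬝ᵥ (l.1 - cv (LaurentSeries L) O) ∈ OO L
  hq : ∃ q', l.2 ⬝ᵥ l.2 = kap ^ 2 * q' ∧ Eqv q' c

lemma q_neC {c : L} (hc : c ≠ 0) {v : Fin n → LaurentSeries L}
    (h : ∃ q', v ⬝ᵥ v = kap ^ 2 * q' ∧ Eqv q' c) : v ⬝ᵥ v ≠ 0 := by
  obtain ⟨q', h1, h2⟩ := h
  rw [h1]
  exact mul_ne_zero (pow_ne_zero _ kap_ne) (h2.ne hc)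

lemma LgC.pre {c : L} {w : Fin n → L} {O : Fin n → ℝ} {m e : ℕ} {α β : L}
    {l : Line n (LaurentSeries L)} (h : LgC c w O m e α β l) : PreC c w O m α l := by
  refine ⟨h.hα, h.hv, ?_, ?_, h.ha, h.hq⟩
  · obtain ⟨B, h1, h2⟩ := h.hB
    rw [h1]
    obtain ⟨j, hj⟩ := Nat.exists_eq_add_of_le h.hem
    have : kap ^ m * (kap * B) = kap ^ (j + 1) * (kap ^ e * B) := by
      rw [hj]; ring
    rw [this]
    exact eqv_kap_pow_mul h2.mem (by omega)
  · intro k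
    obtain ⟨j, hj⟩ := Nat.exists_eq_add_of_le h.hem
    have : kap ^ (2 * m + 1) * (l.1 - cv (LaurentSeries L) O) k =
        kap ^ (j + 1) * (kap ^ (m + e) * (l.1 - cv (LaurentSeries L) O) k) := by
      rw [hj]; ring
    rw [this]
    exact (OO L).mul_mem (kap_pow_mem _) (h.hY k)

lemma ne_of_coeff [CharZero L] {S : Sph n} {c α β : L} (hρ : radL L S ≠ 0) (hc : c ≠ 0)
    (hα : α ≠ 0) (hβ : β ≠ 0) : (-(2 * -β * ((-β - β) * c⁻¹ * α) / radL L S)) ≠ 0 := by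
  have : (-(2 * -β * ((-β - β) * c⁻¹ * α) / radL L S)) = -(4 * β ^ 2 * c⁻¹ * α / radL L S) := by
    ring
  rw [this]
  refine neg_ne_zero.mpr (div_ne_zero (mul_ne_zero (mul_ne_zero (mul_ne_zero ?_
    (pow_ne_zero _ hβ)) (inv_ne_zero hc)) hα) hρ)
  norm_num

/-- reflection in a concentric sphere, large states -/
lemma same_largeC (hsq : S_sqrt) [CharZero L] {c : L} (hc : c ≠ 0) {w : Fin n → L} {m e : ℕ}
    {α β : L} {l : Line n (LaurentSeries L)} (S : Sph n) (hρ : 0 < S.ρ)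
    (h : LgC c w S.O m e α β l) :
    ∃ δ α1, δ ^ 2 = DD S l ∧ (∃ Δ, -δ = kap * Δ ∧ Eqv (kap ^ e * Δ) β) ∧
      LgC c w S.O (m + 2 * e) e α1 β (bl S δ l) := by
  obtain ⟨B, hB1, hB2⟩ := h.hB
  obtain ⟨q', hq1, hq2⟩ := h.hq
  have he := h.he
  have hρL := radL_ne (L := L) S hρ
  have hr : S.rad (LaurentSeries L) ≠ 0 := rad_ne S hρ
  have hq0 := q_neC hc h.hq
  set u := l.1 - S.ctr (LaurentSeries L) with hu
  have hD : DD S l = kap ^ 2 * (B ^ 2 - q' * (u ⬝ᵥ u - S.rad _)) := by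
    unfold DD
    rw [← hu, show u ⬝ᵥ l.2 = kap * B from hB1, hq1]
    ring
  have hG : Eqv (kap ^ (2 * e) * (B ^ 2 - q' * (u ⬝ᵥ u - S.rad _))) ((-β) ^ 2) := by
    have e1 : kap ^ (2 * e) * (B ^ 2 - q' * (u ⬝ᵥ u - S.rad _)) =
        (kap ^ e * B) ^ 2 - kap ^ (2 * e) * (q' * (u ⬝ᵥ u - S.rad _)) := by ring
    rw [e1]
    have e2 : (-β) ^ 2 = β ^ 2 - 0 := by ring
    rw [e2]
    refine (hB2.pow 2).sub (eqv_kap_pow_mul ?_ (by omega))
    exact (OO L).mul_mem hq2.mem ((OO L).sub_mem h.ha (eqv_rad S).mem)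
  obtain ⟨Δ, hΔ1, hΔ2⟩ := root_exists hsq e hD hG (neg_ne_zero.mpr h.hβ)
  have hcore := step_coreC S hρ l w m e he c α β (-β) hc q' B Δ hq1 hq2 h.hv hB1 hB2
    (by
      intro k
      have e1 : kap ^ (m + e + 1) * (l.1 - S.ctr (LaurentSeries L)) k =
        kap * (kap ^ (m + e) * (l.1 - cv (LaurentSeries L) S.O) k) := by
        rw [ctr_eq_cv]; ring
      rw [e1]
      exact eqv_kap_mul (h.hY k)) hΔ2
  obtain ⟨hc1, hc2⟩ := hcore
  have hα1 := ne_of_coeff (S := S) hρL hc h.hα h.hβ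
  refine ⟨kap * Δ, _, hΔ1, ⟨-Δ, by ring, ?_⟩, ⟨h.he, by omega, hα1, h.hβ, hc2, ?_, ?_, ?_, ?_⟩⟩
  · have := hΔ2.neg
    rw [neg_neg] at this
    rw [mul_neg]; exact this
  · refine ⟨-Δ, ?_, ?_⟩
    · rw [← ctr_eq_cv, bl_sub]
      show YY S (kap * Δ) l ⬝ᵥ (RR S (kap * Δ) l).2 = _
      rw [YY_dot_RR S _ l hq0 hr hΔ1]; ring
    · have := hΔ2.neg
      rw [neg_neg] at this
      rw [mul_neg]; exact this
  · intro k
    rw [← ctr_eq_cv, bl_sub]
    obtain ⟨j, hj⟩ := Nat.exists_eq_add_of_le he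
    have e1 : kap ^ (m + 2 * e + e) * YY S (kap * Δ) l k =
        kap ^ (2 * j + 1) * (kap ^ (m + e + 1) * YY S (kap * Δ) l k) := by
      rw [hj]; ring
    rw [e1]
    exact (OO L).mul_mem (kap_pow_mem _) (hc1 k).mem
  · rw [← ctr_eq_cv, bl_sub, YY_dot_YY S _ l hq0 hΔ1]
    exact (eqv_rad S).mem
  · refine ⟨q', ?_, hq2⟩
    show (RR S (kap * Δ) l).2 ⬝ᵥ (RR S (kap * Δ) l).2 = _
    rw [RR_q S _ l hq0 hr hΔ1, hq1]

/-- reflection in a sphere with another centre -/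
lemma diff_largeC (hsq : S_sqrt) [CharZero L] {cc : L} (hcc0 : cc ≠ 0) {w : Fin n → L}
    {O : Fin n → ℝ} {m : ℕ} {α : L}
    {l : Line n (LaurentSeries L)} (S : Sph n) (hρ : 0 < S.ρ) (h : PreC cc w O m α l)
    (hw : (cv L O - cv L S.O) ⬝ᵥ w ≠ 0) :
    ∃ δ α1 β, δ ^ 2 = DD S l ∧ (∃ Δ, -δ = kap * Δ ∧ Eqv (kap ^ (m + 1) * Δ) β) ∧
      LgC cc w S.O (3 * m + 2) (m + 1) α1 β (bl S δ l) := by
  obtain ⟨q', hq1, hq2⟩ := h.hq
  have hρL := radL_ne (L := L) S hρ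
  have hr : S.rad (LaurentSeries L) ≠ 0 := rad_ne S hρ
  have hq0 := q_neC hcc0 h.hq
  have hk : (kap : LaurentSeries L) ≠ 0 := kap_ne
  set c : Fin n → LaurentSeries L := cv _ O - cv _ S.O with hcdef
  set u0 := l.1 - cv (LaurentSeries L) O with hu0
  have hu : l.1 - S.ctr (LaurentSeries L) = u0 + c := by
    rw [hu0, hcdef, ctr_eq_cv]; abel
  have hcE : ∀ k, Eqv (c k) ((cv L O - cv L S.O) k) := fun k => (eqv_cv O k).sub (eqv_cv S.O k)
  set β : L := α * ((cv L O - cv L S.O) ⬝ᵥ w) with hβdef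
  have hβ : β ≠ 0 := mul_ne_zero h.hα hw
  -- the scalar product
  have hcv : Eqv (kap ^ m * (c ⬝ᵥ l.2)) β := by
    have e1 : kap ^ m * (c ⬝ᵥ l.2) = c ⬝ᵥ (fun k => kap ^ m * l.2 k) := by
      unfold dotProduct
      rw [Finset.mul_sum]
      exact Finset.sum_congr rfl (fun k _ => by ring)
    have e2 : β = (cv L O - cv L S.O) ⬝ᵥ (fun k => α * w k) := by
      rw [hβdef]
      unfold dotProduct
      rw [Finset.mul_sum]
      exact Finset.sum_congr rfl (fun k _ => by ring)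
    rw [e1, e2]
    exact eqv_dot hcE h.hv
  set b := (l.1 - S.ctr (LaurentSeries L)) ⬝ᵥ l.2 with hb
  have hbE : Eqv (kap ^ m * b) β := by
    have e1 : kap ^ m * b = kap ^ m * (u0 ⬝ᵥ l.2) + kap ^ m * (c ⬝ᵥ l.2) := by
      rw [hb, hu, add_dotProduct]; ring
    rw [e1, show β = 0 + β by ring]
    exact h.hB.add hcv
  set B := b / kap with hBdef
  have hB1 : (l.1 - S.ctr (LaurentSeries L)) ⬝ᵥ l.2 = kap * B := by
    rw [hBdef, ← hb]; field_simp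
  have hB2 : Eqv (kap ^ (m + 1) * B) β := by
    have e1 : kap ^ (m + 1) * B = kap ^ m * b := by
      rw [hBdef]; field_simp; ring
    rw [e1]; exact hbE
  have hD : DD S l = kap ^ 2 * (B ^ 2 - q' * ((u0 + c) ⬝ᵥ (u0 + c) - S.rad _)) := by
    unfold DD
    rw [hB1, hq1, hu]
    ring
  have hcc : c ⬝ᵥ c ∈ OO L := mem_dot (fun k => (hcE k).mem) (fun k => (hcE k).mem)
  have hcu : kap ^ (2 * m + 1) * (c ⬝ᵥ u0) ∈ OO L := by
    have e1 : kap ^ (2 * m + 1) * (c ⬝ᵥ u0) = c ⬝ᵥ (fun k => kap ^ (2 * m + 1) * u0 k) := by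
      unfold dotProduct
      rw [Finset.mul_sum]
      exact Finset.sum_congr rfl (fun k _ => by ring)
    rw [e1]
    exact mem_dot (fun k => (hcE k).mem) h.hY
  have hG : Eqv (kap ^ (2 * (m + 1)) * (B ^ 2 - q' * ((u0 + c) ⬝ᵥ (u0 + c) - S.rad _)))
      ((-β) ^ 2) := by
    have e1 : kap ^ (2 * (m + 1)) * (B ^ 2 - q' * ((u0 + c) ⬝ᵥ (u0 + c) - S.rad _)) =
        (kap ^ (m + 1) * B) ^ 2 - kap * (q' * (kap ^ (2 * m + 1) * (u0 ⬝ᵥ u0 + c ⬝ᵥ c - S.rad _)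
          + 2 * (kap ^ (2 * m + 1) * (c ⬝ᵥ u0)))) := by
      simp only [add_dotProduct, dotProduct_add]
      rw [dotProduct_comm u0 c]
      ring
    rw [e1]
    have e2 : (-β) ^ 2 = β ^ 2 - 0 := by ring
    rw [e2]
    refine (hB2.pow 2).sub (eqv_kap_mul ?_)
    refine (OO L).mul_mem hq2.mem ((OO L).add_mem ((OO L).mul_mem (kap_pow_mem _)
      ((OO L).sub_mem ((OO L).add_mem h.ha hcc) (eqv_rad S).mem)) ?_)
    rw [two_mul]
    exact (OO L).add_mem hcu hcu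
  obtain ⟨Δ, hΔ1, hΔ2⟩ := root_exists hsq (m + 1) hD hG (neg_ne_zero.mpr hβ)
  have hcore := step_coreC S hρ l w m (m + 1) (by omega) cc α β (-β) hcc0 q' B Δ hq1 hq2 h.hv
    hB1 hB2
    (by
      intro k
      rw [hu]
      have e1 : kap ^ (m + (m + 1) + 1) * (u0 + c) k =
        kap * (kap ^ (2 * m + 1) * u0 k + kap ^ (2 * m + 1) * c k) := by
        rw [Pi.add_apply]; ring
      rw [e1]
      exact eqv_kap_mul ((OO L).add_mem (h.hY k) ((OO L).mul_mem (kap_pow_mem _) (hcE k).mem))) hΔ2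
  obtain ⟨hc1, hc2⟩ := hcore
  have hα1 := ne_of_coeff (S := S) hρL hcc0 h.hα hβ
  refine ⟨kap * Δ, _, β, hΔ1, ⟨-Δ, by ring, ?_⟩, ⟨by omega, by omega, hα1, hβ, ?_, ?_, ?_, ?_, ?_⟩⟩
  · have := hΔ2.neg
    rw [neg_neg] at this
    rw [mul_neg]; exact this
  · intro k
    have := hc2 k
    have e1 : m + 2 * (m + 1) = 3 * m + 2 := by ring
    rw [e1] at this
    exact this
  · refine ⟨-Δ, ?_, ?_⟩
    · rw [← ctr_eq_cv, bl_sub]
      show YY S (kap * Δ) l ⬝ᵥ (RR S (kap * Δ) l).2 = _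
      rw [YY_dot_RR S _ l hq0 hr hΔ1]; ring
    · have := hΔ2.neg
      rw [neg_neg] at this
      rw [mul_neg]; exact this
  · intro k
    rw [← ctr_eq_cv, bl_sub]
    have e1 : kap ^ (3 * m + 2 + (m + 1)) * YY S (kap * Δ) l k =
        kap ^ (2 * m + 1) * (kap ^ (m + (m + 1) + 1) * YY S (kap * Δ) l k) := by
      ring
    rw [e1]
    exact (OO L).mul_mem (kap_pow_mem _) (hc1 k).mem
  · rw [← ctr_eq_cv, bl_sub, YY_dot_YY S _ l hq0 hΔ1]
    exact (eqv_rad S).mem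
  · refine ⟨q', ?_, hq2⟩
    show (RR S (kap * Δ) l).2 ⬝ᵥ (RR S (kap * Δ) l).2 = _
    rw [RR_q S _ l hq0 hr hΔ1, hq1]

theorem back_largeC (hsq : S_sqrt) [CharZero L] {cc : L} (hcc0 : cc ≠ 0) (w : Fin n → L)
    (A : Set (Fin n → ℝ))
    (hA : Sep w A) : ∀ (W : List (Sph n)), (∀ T ∈ W, 0 < T.ρ ∧ T.O ∈ A) →
    ∀ (O : Fin n → ℝ), O ∈ A → ∀ (m e : ℕ) (α β : L) (l : Line n (LaurentSeries L)),
      LgC cc w O m e α β l →
      ∃ (c : Ch n (LaurentSeries L)) (l0 : Line n (LaurentSeries L)), c.map Prod.fst = W ∧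
        Val c l0 ∧ endl c l0 = l ∧ l0.2 ⬝ᵥ l0.2 ≠ 0 ∧
        blkA O (fun S δ => δ ^ 2 = DD S l ∧ ∃ Δ, δ = kap * Δ ∧ Eqv (kap ^ e * Δ) β) c := by
  intro W
  induction W with
  | nil =>
    intro _ O _ m e α β l h
    exact ⟨[], l, rfl, trivial, rfl, q_neC hcc0 h.hq, trivial⟩
  | cons S W ih =>
    intro hW O hO m e α β l h
    have hS := hW S (List.mem_cons_self)
    have hW' : ∀ T ∈ W, 0 < T.ρ ∧ T.O ∈ A := fun T hT => hW T (List.mem_cons_of_mem _ hT)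
    have hq := q_neC hcc0 h.hq
    have hr : S.rad (LaurentSeries L) ≠ 0 := rad_ne S hS.1
    by_cases hSO : S.O = O
    · subst hSO
      obtain ⟨δ, α1, h1, ⟨Δ, h2, h3⟩, h4⟩ := same_largeC hsq hcc0 S hS.1 h
      obtain ⟨c1, l1, g1, g2, g3, g4, g5⟩ := ih hW' S.O hO _ _ _ _ _ h4
      have hWc : ∀ p ∈ c1, 0 < p.1.ρ := by
        intro p hp
        exact (hW' p.1 (by rw [← g1]; exact List.mem_map_of_mem hp)).1
      have hDS : ∀ T : Sph n, T.O = S.O → DD T (bl S δ l) = DD T l := by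
        intro T hT
        rw [DD_bl, RR_DD_conc _ l S T hT hq hr h1]
      have hcomp : compat S (-δ) c1 := by
        refine compat_of_blkA ?_ c1 g5
        intro T δ' hT1 hT2 ⟨hT3, Δ', hT4, hT5⟩
        have hTS : DD T (bl S δ l) = δ ^ 2 := by
          rw [hDS T hT1, h1]
          have e1 : T.ctr (LaurentSeries L) = S.ctr (LaurentSeries L) := by
            unfold Sph.ctr; rw [hT1]
          have e2 : T.rad (LaurentSeries L) = S.rad (LaurentSeries L) := by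
            unfold Sph.rad; rw [hT2]
          unfold DD; rw [e1, e2]
        have hk : (kap : LaurentSeries L) ≠ 0 := kap_ne
        have h5 : (kap ^ e * Δ') ^ 2 = (kap ^ e * Δ) ^ 2 := by
          have h6 : (kap * Δ') ^ 2 = (kap * Δ) ^ 2 := by
            rw [← hT4, ← h2, hT3, hTS]; ring
          have h7 : kap ^ 2 * (Δ' ^ 2 - Δ ^ 2) = 0 := by linear_combination h6
          have h8 := (mul_eq_zero.mp h7).resolve_left (pow_ne_zero _ hk)
          linear_combination kap ^ (2 * e) * h8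
        have h9 := root_unique h.hβ h5 hT5 h3
        have h10 := mul_left_cancel₀ (pow_ne_zero e hk) h9
        rw [hT4, h2, h10]
      obtain ⟨s, k1, k2⟩ := extend S hS.1 l hq δ h1 c1 l1 hWc g2 g3 g4 hcomp
      refine ⟨(S, -δ) :: c1, shiftL s l1, by simp only [List.map_cons, g1], k1, k2, g4, ?_⟩
      intro _
      refine ⟨⟨by rw [neg_sq, h1], Δ, h2, h3⟩, blkA_mono ?_ c1 g5⟩
      intro T δ' hT ⟨hT1, hT2⟩
      exact ⟨by rw [hT1, hDS T hT], hT2⟩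
    · obtain ⟨δ, α1, β1, h1, ⟨Δ, h2, h3⟩, h4⟩ := diff_largeC hsq hcc0 S hS.1 h.pre
        (hA O hO S.O hS.2 (Ne.symm hSO))
      obtain ⟨c1, l1, g1, g2, g3, g4, g5⟩ := ih hW' S.O hS.2 _ _ _ _ _ h4
      have hWc : ∀ p ∈ c1, 0 < p.1.ρ := by
        intro p hp
        exact (hW' p.1 (by rw [← g1]; exact List.mem_map_of_mem hp)).1
      have hDS : ∀ T : Sph n, T.O = S.O → DD T (bl S δ l) = DD T l := by
        intro T hT
        rw [DD_bl, RR_DD_conc _ l S T hT hq hr h1]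
      have hcomp : compat S (-δ) c1 := by
        refine compat_of_blkA ?_ c1 g5
        intro T δ' hT1 hT2 ⟨hT3, Δ', hT4, hT5⟩
        have hTS : DD T (bl S δ l) = δ ^ 2 := by
          rw [hDS T hT1, h1]
          have e1 : T.ctr (LaurentSeries L) = S.ctr (LaurentSeries L) := by
            unfold Sph.ctr; rw [hT1]
          have e2 : T.rad (LaurentSeries L) = S.rad (LaurentSeries L) := by
            unfold Sph.rad; rw [hT2]
          unfold DD; rw [e1, e2]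
        have hk : (kap : LaurentSeries L) ≠ 0 := kap_ne
        have h5 : (kap ^ (m + 1) * Δ') ^ 2 = (kap ^ (m + 1) * Δ) ^ 2 := by
          have h6 : (kap * Δ') ^ 2 = (kap * Δ) ^ 2 := by
            rw [← hT4, ← h2, hT3, hTS]; ring
          have h7 : kap ^ 2 * (Δ' ^ 2 - Δ ^ 2) = 0 := by linear_combination h6
          have h8 := (mul_eq_zero.mp h7).resolve_left (pow_ne_zero _ hk)
          linear_combination kap ^ (2 * (m + 1)) * h8
        have h9 := root_unique h4.hβ h5 hT5 h3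
        have h10 := mul_left_cancel₀ (pow_ne_zero (m + 1) hk) h9
        rw [hT4, h2, h10]
      obtain ⟨s, k1, k2⟩ := extend S hS.1 l hq δ h1 c1 l1 hWc g2 g3 g4 hcomp
      refine ⟨(S, -δ) :: c1, shiftL s l1, by simp only [List.map_cons, g1], k1, k2, g4, ?_⟩
      intro hcon
      exact absurd hcon hSO

/-- from a `PreC` state backwards through a whole word -/
theorem back_preC (hsq : S_sqrt) [CharZero L] {cc : L} (hcc0 : cc ≠ 0) (w : Fin n → L)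
    (A : Set (Fin n → ℝ))
    (hA : Sep w A) (W : List (Sph n)) (hW : ∀ T ∈ W, 0 < T.ρ ∧ T.O ∈ A)
    (O : Fin n → ℝ) (hO : O ∈ A) (hWO : ∀ T ∈ W, T.O ≠ O) (m : ℕ) (α : L)
    (l : Line n (LaurentSeries L)) (h : PreC cc w O m α l) :
      ∃ (c : Ch n (LaurentSeries L)) (l0 : Line n (LaurentSeries L)), c.map Prod.fst = W ∧
        Val c l0 ∧ endl c l0 = l := by
  cases W with
  | nil => exact ⟨[], l, rfl, trivial, rfl⟩
  | cons S W =>
  have hS := hW S (List.mem_cons_self)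
  have hSO := hWO S (List.mem_cons_self)
  have hW' : ∀ T ∈ W, 0 < T.ρ ∧ T.O ∈ A := fun T hT => hW T (List.mem_cons_of_mem _ hT)
  have hq := q_neC hcc0 h.hq
  have hr : S.rad (LaurentSeries L) ≠ 0 := rad_ne S hS.1
  obtain ⟨δ, α1, β1, h1, ⟨Δ, h2, h3⟩, h4⟩ := diff_largeC hsq hcc0 S hS.1 h
    (hA O hO S.O hS.2 (Ne.symm hSO))
  obtain ⟨c1, l1, g1, g2, g3, g4, g5⟩ :=
    back_largeC hsq hcc0 w A hA W hW' S.O hS.2 _ _ _ _ _ h4
  have hWc : ∀ p ∈ c1, 0 < p.1.ρ := by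
    intro p hp
    exact (hW' p.1 (by rw [← g1]; exact List.mem_map_of_mem hp)).1
  have hDS : ∀ T : Sph n, T.O = S.O → DD T (bl S δ l) = DD T l := by
    intro T hT
    rw [DD_bl, RR_DD_conc _ l S T hT hq hr h1]
  have hcomp : compat S (-δ) c1 := by
    refine compat_of_blkA ?_ c1 g5
    intro T δ' hT1 hT2 ⟨hT3, Δ', hT4, hT5⟩
    have hTS : DD T (bl S δ l) = δ ^ 2 := by
      rw [hDS T hT1, h1]
      have e1 : T.ctr (LaurentSeries L) = S.ctr (LaurentSeries L) := by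
        unfold Sph.ctr; rw [hT1]
      have e2 : T.rad (LaurentSeries L) = S.rad (LaurentSeries L) := by
        unfold Sph.rad; rw [hT2]
      unfold DD; rw [e1, e2]
    have hk : (kap : LaurentSeries L) ≠ 0 := kap_ne
    have h5 : (kap ^ (m + 1) * Δ') ^ 2 = (kap ^ (m + 1) * Δ) ^ 2 := by
      have h6 : (kap * Δ') ^ 2 = (kap * Δ) ^ 2 := by
        rw [← hT4, ← h2, hT3, hTS]; ring
      have h7 : kap ^ 2 * (Δ' ^ 2 - Δ ^ 2) = 0 := by linear_combination h6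
      have h8 := (mul_eq_zero.mp h7).resolve_left (pow_ne_zero _ hk)
      linear_combination kap ^ (2 * (m + 1)) * h8
    have h9 := root_unique h4.hβ h5 hT5 h3
    have h10 := mul_left_cancel₀ (pow_ne_zero (m + 1) hk) h9
    rw [hT4, h2, h10]
  obtain ⟨s, k1, k2⟩ := extend S hS.1 l hq δ h1 c1 l1 hWc g2 g3 g4 hcomp
  exact ⟨(S, -δ) :: c1, shiftL s l1, by simp only [List.map_cons, g1], k1, k2⟩

end Pool.Agent.TH746.OB
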