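import Pool.Agent.TH746.UM.Chain

set_option autoImplicit false

open Set Filter Topology Asymptotics
open scoped InnerProductSpace ContDiff
open Pool.Agent.H721R2.Quart

namespace Pool.Agent.TH746.OB

open Pool.Agent.TH746.UM

variable {E : Type*} [NormedAddCommGroup E] [InnerProductSpace ℝ E]

theorem time_shadow {ε : ℕ → ℝ} {X X' V V' Y Y' : ℕ → E} {L T : ℕ → ℝ} {u : E} {t : ℝ}
    (hu : u ≠ 0) (hV : Tendsto V atTop (𝓝 u)) (hT : Tendsto T atTop (𝓝 t))
    (h1 : ∀ i, X' i = X i + L i • V i) (h2 : ∀ i, Y' i = Y i + T i • V' i)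
    (h3 : (fun i => X i - Y i) =O[atTop] ε) (h4 : (fun i => X' i - Y' i) =O[atTop] ε)
    (h5 : (fun i => V i - V' i) =O[atTop] ε) : (fun i => L i - T i) =O[atTop] ε := by
  have h6 : (fun i => (L i - T i) • V i) =O[atTop] ε := by
    have h7 : (fun i => T i • (V i - V' i)) =O[atTop] fun i => (1 : ℝ) * ε i :=
      (hT.isBigO_one ℝ).smul h5
    simp only [one_mul] at h7
    refine ((h4.sub h3).sub h7).congr_left fun i => ?_
    rw [h1, h2]
    module
  refine IsBigO.trans ?_ h6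
  have h8 : ∀ᶠ i in atTop, ‖u‖ / 2 < ‖V i‖ :=
    hV.norm.eventually (lt_mem_nhds (half_lt_self (norm_pos_iff.2 hu)))
  refine IsBigO.of_bound (2 / ‖u‖) ?_
  filter_upwards [h8] with i hi
  rw [norm_smul]
  have hu' := norm_pos_iff.2 hu
  have h9 : 1 ≤ 2 / ‖u‖ * ‖V i‖ := by
    rw [div_mul_eq_mul_div, one_le_div hu']
    linarith
  calc ‖L i - T i‖ = ‖L i - T i‖ * 1 := (mul_one _).symm
    _ ≤ ‖L i - T i‖ * (2 / ‖u‖ * ‖V i‖) := mul_le_mul_of_nonneg_left h9 (norm_nonneg _)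
    _ = 2 / ‖u‖ * (‖L i - T i‖ * ‖V i‖) := by ring

variable [FiniteDimensional ℝ E]

/-- A chain of reflections in analytic mirrors near a given trajectory, and the shadowing of
approximate trajectories, with the times. -/
theorem chain_shadow2 {N : ℕ} {p u : ℕ → E} {t : ℕ → ℝ} {G : ℕ → E → ℝ}
    (hG : ∀ k < N, ContDiffAt ℝ ω (G (k + 1)) (p (k + 1)))
    (h0 : ∀ k < N, G (k + 1) (p (k + 1)) = 0)
    (ht : ∀ k < N, ⟪gradient (G (k + 1)) (p (k + 1)), u k⟫_ℝ ≠ 0)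
    (hp : ∀ k < N, p (k + 1) = p k + t k • u k)
    (hu : ∀ k < N, u (k + 1) = rf (dir (gradient (G (k + 1)) (p (k + 1)))) (u k)) :
    ∃ (T : ℕ → E × E → ℝ) (s : ℕ → E × E → E × E), s 0 = id ∧
      (∀ k ≤ N, ContDiffAt ℝ ω (s k) (p 0, u 0) ∧ s k (p 0, u 0) = (p k, u k)) ∧
      (∀ k < N, ContDiffAt ℝ ω (fun y => T k (s k y)) (p 0, u 0) ∧ T k (p k, u k) = t k) ∧
      (∀ k < N, ∀ y, s (k + 1) y = ((s k y).1 + T k (s k y) • (s k y).2,
        rf (dir (gradient (G (k + 1)) ((s k y).1 + T k (s k y) • (s k y).2))) (s k y).2)) ∧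
      (∀ k < N, ∀ᶠ y in 𝓝 (p 0, u 0), G (k + 1) (s (k + 1) y).1 = 0) ∧
      (∀ (ε : ℕ → ℝ) (x e : ℕ → ℕ → E) (L : ℕ → ℕ → ℝ) (y : ℕ → E × E),
        (∀ k ≤ N, Tendsto (x k) atTop (𝓝 (p k))) → (∀ k ≤ N, Tendsto (e k) atTop (𝓝 (u k))) →
        (∀ k < N, Tendsto (L k) atTop (𝓝 (t k))) →
        Tendsto y atTop (𝓝 (p 0, u 0)) → (fun i => (x 0 i, e 0 i) - y i) =O[atTop] ε →
        (∀ k < N, ∀ i, x (k + 1) i = x k i + L k i • e k i) →
        (∀ k < N, (fun i => G (k + 1) (x (k + 1) i)) =O[atTop] ε) →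
        (∀ k < N, (fun i => e (k + 1) i - rf (dir (gradient (G (k + 1)) (x (k + 1) i))) (e k i))
          =O[atTop] ε) →
        ∀ k ≤ N, (fun i => (x k i, e k i) - s k (y i)) =O[atTop] ε) := by
  have hst : ∀ k, ∃ (T : E × E → ℝ) (R : E × E → E × E), k < N →
      (ContDiffAt ℝ ω T (p k, u k) ∧ T (p k, u k) = t k ∧
      ContDiffAt ℝ ω R (p k, u k) ∧
      R = (fun y => (y.1 + T y • y.2, rf (dir (gradient (G (k + 1)) (y.1 + T y • y.2))) y.2)) ∧
      (∀ᶠ y in 𝓝 (p k, u k), G (k + 1) (y.1 + T y • y.2) = 0) ∧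
      (∀ (ε : ℕ → ℝ) (x e x' e' : ℕ → E) (L : ℕ → ℝ) (y : ℕ → E × E),
        Tendsto x atTop (𝓝 (p k)) → Tendsto e atTop (𝓝 (u k)) → Tendsto L atTop (𝓝 (t k)) →
        Tendsto y atTop (𝓝 (p k, u k)) → (fun i => (x i, e i) - y i) =O[atTop] ε →
        (∀ i, x' i = x i + L i • e i) → (fun i => G (k + 1) (x' i)) =O[atTop] ε →
        (fun i => e' i - rf (dir (gradient (G (k + 1)) (x' i))) (e i)) =O[atTop] ε →
        (fun i => (x' i, e' i) - R (y i)) =O[atTop] ε)) := by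
    intro k
    by_cases hk : k < N
    · obtain ⟨T, R, h⟩ := step_shadow (G := G (k + 1)) (x0 := p k) (v0 := u k) (s0 := t k)
        (by rw [← hp k hk]; exact hG k hk) (by rw [← hp k hk]; exact h0 k hk)
        (by rw [← hp k hk]; exact ht k hk)
      exact ⟨T, R, fun _ => h⟩
    · exact ⟨0, 0, fun h => absurd h hk⟩
  choose T R hTR using hst
  obtain ⟨s, hs0, hs1⟩ : ∃ s : ℕ → E × E → E × E, s 0 = id ∧ ∀ k, s (k + 1) = fun y => R k (s k y) :=
    ⟨fun k => Nat.rec id (fun k s y => R k (s y)) k, rfl, fun k => rfl⟩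
  have hbase : ∀ k ≤ N, ContDiffAt ℝ ω (s k) (p 0, u 0) ∧ s k (p 0, u 0) = (p k, u k) := by
    intro k
    induction k with
    | zero => intro _; rw [hs0]; exact ⟨contDiffAt_id, rfl⟩
    | succ k ih =>
      intro hk
      obtain ⟨ih1, ih2⟩ := ih (by omega)
      obtain ⟨a1, a2, a3, a4, a5, a6⟩ := hTR k (by omega)
      rw [hs1]
      refine ⟨ContDiffAt.comp (g := R k) (f := s k) _ (by rw [ih2]; exact a3) ih1, ?_⟩
      change R k (s k (p 0, u 0)) = _
      rw [ih2, a4]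
      simp only [a2]
      rw [← hp k (by omega), ← hu k (by omega)]
  have hten : ∀ k ≤ N, Tendsto (s k) (𝓝 (p 0, u 0)) (𝓝 (p k, u k)) := by
    intro k hk
    have := (hbase k hk).1.continuousAt.tendsto
    rwa [(hbase k hk).2] at this
  refine ⟨T, s, hs0, hbase, ?_, ?_, ?_, ?_⟩
  · intro k hk
    refine ⟨?_, (hTR k hk).2.1⟩
    refine ContDiffAt.comp (g := T k) (f := s k) _ ?_ (hbase k hk.le).1
    rw [(hbase k hk.le).2]
    exact (hTR k hk).1
  · intro k hk y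
    rw [hs1]
    conv_lhs => rw [(hTR k hk).2.2.2.1]
  · intro k hk
    have h1 := (hten k hk.le).eventually (hTR k hk).2.2.2.2.1
    filter_upwards [h1] with y hy
    rw [hs1]
    conv_lhs => rw [(hTR k hk).2.2.2.1]
    exact hy
  · intro ε x e L y hx he hL hy hxy hstep hGx hex k
    induction k with
    | zero =>
      intro _
      rw [hs0]
      exact hxy
    | succ k ih =>
      intro hk
      have hk' : k < N := hk
      have ih' := ih hk'.le
      obtain ⟨a1, a2, a3, a4, a5, a6⟩ := hTR k hk'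
      rw [hs1]
      exact a6 ε (x k) (e k) (x (k + 1)) (e (k + 1)) (L k) (fun i => s k (y i)) (hx k hk'.le)
        (he k hk'.le) (hL k hk') ((hten k hk'.le).comp hy) ih' (hstep k hk') (hGx k hk')
        (hex k hk')

end Pool.Agent.TH746.OB
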