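import Pool.Agent.TH746.OB.Red2
import Pool.Agent.TH746.UM.Main

set_option autoImplicit false

open MeasureTheory Set Filter Topology Asymptotics
open scoped ContDiff InnerProductSpace
open Pool.Agent.H721R2.Quart Pool.Agent.H721R2.Ivrii

namespace Pool.Agent.TH746.OB

open Pool.Agent.TH746.UM

section K
variable {E Z : Type} [NormedAddCommGroup E] [InnerProductSpace ℝ E] [FiniteDimensional ℝ E]
  [NormedAddCommGroup Z] [NormedSpace ℝ Z] [FiniteDimensional ℝ Z] {Ω : Set E} {N : ℕ}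

/-- the length of the trajectory -/
noncomputable def len (C : SChn E Ω N Z) (m : ℕ) (z : Z) : ℝ := ∑ k ∈ Finset.range m, C.L k z

omit [FiniteDimensional ℝ Z] in
theorem len_cd (C : SChn E Ω N Z) {m : ℕ} (hm : m ≤ N) {z : Z} (hz : z ∈ C.U) :
    ContDiffAt ℝ ∞ (len C m) z := by
  unfold len
  exact ContDiffAt.sum fun k hk => C.cL k (lt_of_lt_of_le (Finset.mem_range.1 hk) hm) z hz

omit [FiniteDimensional ℝ Z] in
theorem e_perp (C : SChn E Ω N Z) {k : ℕ} (hk : k ≤ N) {z : Z} (hz : z ∈ C.U) (ζ : Z) :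
    ⟪C.e k z, fderiv ℝ (C.e k) z ζ⟫_ℝ = 0 := by
  have hd : DifferentiableAt ℝ (C.e k) z := (C.ce k hk z hz).differentiableAt (by simp)
  have h1 : (fun z => ⟪C.e k z, C.e k z⟫_ℝ) =ᶠ[𝓝 z] fun _ => (1 : ℝ) := by
    filter_upwards [C.hU.mem_nhds hz] with y hy
    exact C.ee k hk y hy
  have h2 := h1.fderiv_eq (𝕜 := ℝ)
  rw [fderiv_fun_const] at h2
  have h3 := congrArg (fun l : Z →L[ℝ] ℝ => l ζ) h2
  rw [fderiv_inner_apply ℝ hd hd] at h3
  simp only [Pi.zero_apply, _root_.zero_apply] at h3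
  rw [real_inner_comm (C.e k z) (fderiv ℝ (C.e k) z ζ)] at h3
  linarith

omit [FiniteDimensional ℝ Z] in
theorem dL_eq (C : SChn E Ω N Z) {k : ℕ} (hk : k < N) {z : Z} (hz : z ∈ C.U) (ζ : Z) :
    fderiv ℝ (C.L k) z ζ = ⟪C.e k z, fderiv ℝ (C.x (k + 1)) z ζ⟫_ℝ -
      ⟪C.e k z, fderiv ℝ (C.x k) z ζ⟫_ℝ := by
  have hL : DifferentiableAt ℝ (C.L k) z := (C.cL k hk z hz).differentiableAt (by simp)
  have he : DifferentiableAt ℝ (C.e k) z := (C.ce k hk.le z hz).differentiableAt (by simp)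
  have hx : DifferentiableAt ℝ (C.x k) z := (C.cx k hk.le z hz).differentiableAt (by simp)
  have h1 : HasFDerivAt (C.x (k + 1)) (fderiv ℝ (C.x k) z + (C.L k z • fderiv ℝ (C.e k) z +
      (fderiv ℝ (C.L k) z).smulRight (C.e k z))) z := by
    have h2 := hx.hasFDerivAt.add (hL.hasFDerivAt.smul he.hasFDerivAt)
    have h3 : C.x (k + 1) = fun z => C.x k z + C.L k z • C.e k z := funext (C.step k hk)
    rw [h3]
    exact h2
  have h2 : fderiv ℝ (C.x (k + 1)) z ζ = fderiv ℝ (C.x k) z ζ + (C.L k z • fderiv ℝ (C.e k) z ζ +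
      fderiv ℝ (C.L k) z ζ • C.e k z) := by
    rw [h1.fderiv]; rfl
  rw [h2, inner_add_right, inner_add_right, inner_smul_right, inner_smul_right,
    e_perp C hk.le hz, C.ee k hk.le z hz]
  ring

omit [FiniteDimensional ℝ Z] in
theorem e_eq (C : SChn E Ω N Z) {k : ℕ} (hk : k < N) {z : Z} (hz : z ∈ C.U) (ζ : Z) :
    ⟪C.e (k + 1) z, fderiv ℝ (C.x (k + 1)) z ζ⟫_ℝ = ⟪C.e k z, fderiv ℝ (C.x (k + 1)) z ζ⟫_ℝ := by
  rw [C.refl k hk z]
  unfold rf
  rw [inner_sub_left, inner_smul_left, C.tan (k + 1) hk z hz ζ]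
  simp

omit [FiniteDimensional ℝ Z] in
theorem dlen (C : SChn E Ω N Z) {m : ℕ} (hm : m ≤ N) {z : Z} (hz : z ∈ C.U) (ζ : Z) :
    fderiv ℝ (len C m) z ζ = ⟪C.e m z, fderiv ℝ (C.x m) z ζ⟫_ℝ -
      ⟪C.e 0 z, fderiv ℝ (C.x 0) z ζ⟫_ℝ := by
  induction m with
  | zero =>
    have h1 : len C 0 = fun _ => 0 := by
      funext z; unfold len; simp
    rw [h1, fderiv_fun_const, sub_self]
    rfl
  | succ m ih =>
    have hL : DifferentiableAt ℝ (C.L m) z := (C.cL m hm z hz).differentiableAt (by simp)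
    have hl : DifferentiableAt ℝ (len C m) z :=
      (len_cd C (by omega) hz).differentiableAt (by simp)
    have h1 : len C (m + 1) = fun z => len C m z + C.L m z := by
      funext z; unfold len; rw [Finset.sum_range_succ]
    rw [h1, fderiv_fun_add hl hL, add_apply, ih (by omega), dL_eq C hm hz, e_eq C hm hz]
    ring

end K

section M
variable {d : ℕ}

theorem fam_null2 (hd : 2 ≤ d) {Z : Type} [NormedAddCommGroup Z] [NormedSpace ℝ Z]
    [FiniteDimensional ℝ Z] [MeasurableSpace Z] [BorelSpace Z] (μ : Measure Z)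
    [μ.IsAddHaarMeasure] {Ω : Set (EuclideanSpace ℝ (Fin d))}
    {g : EuclideanSpace ℝ (Fin d) ≃ᵃⁱ[ℝ] EuclideanSpace ℝ (Fin d)} {n : ℕ} (hn : 1 ≤ n)
    (C : SChn (EuclideanSpace ℝ (Fin d)) Ω n Z) :
    μ {z | z ∈ C.U ∧ C.x n z = g (C.x 0 z) ∧ C.e n z = g.linearIsometryEquiv (C.e 0 z) ∧
      ∀ k, 1 ≤ k → k < n → Round Ω (C.x k z)} = 0 := by
  obtain ⟨A, hA⟩ : ∃ A : Set Z, A = {z | z ∈ C.U ∧ C.x n z = g (C.x 0 z) ∧
    C.e n z = g.linearIsometryEquiv (C.e 0 z) ∧ ∀ k, 1 ≤ k → k < n → Round Ω (C.x k z)} :=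
    ⟨_, rfl⟩
  rw [← hA]
  have hAm : ∀ z ∈ A, z ∈ C.U ∧ C.x n z = g (C.x 0 z) ∧
    C.e n z = g.linearIsometryEquiv (C.e 0 z) ∧ ∀ k, 1 ≤ k → k < n → Round Ω (C.x k z) := by
    intro z hz; rw [hA] at hz; exact hz
  have hfr : Module.finrank ℝ (EuclideanSpace ℝ (Fin d)) = d := finrank_euclideanSpace_fin
  -- the mirrors
  have hflat : ∀ k, ∃ B : Set Z, μ B = 0 ∧ (1 ≤ k → k < n → ∀ z0 ∈ A \ B, ∃ lam,
      Sph (C.x k) (C.nu k) z0 lam) := by
    intro k
    by_cases hk' : 1 ≤ k ∧ k < n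
    · obtain ⟨hk1, hk2⟩ := hk'
      have hk : k ≤ n := hk2.le
      have hcx : ∀ z ∈ A, ContDiffAt ℝ ∞ (C.x k) z := fun z hz => C.cx k hk z (hAm z hz).1
      have hcn : ∀ z ∈ A, ContDiffAt ℝ ∞ (C.nu k) z := fun z hz => C.cn k hk z (hAm z hz).1
      have htan : ∀ z ∈ A, ∀ᶠ z' in 𝓝 z, ∀ ζ, ⟪C.nu k z', fderiv ℝ (C.x k) z' ζ⟫_ℝ = 0 := by
        intro z hz
        filter_upwards [C.hU.mem_nhds (hAm z hz).1] with z' hz'
        exact C.tan k hk z' hz'
      rcases Nat.lt_or_ge 2 d with h3 | h3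
      · obtain ⟨B, hB, hf⟩ := umb_flat μ A (C.x k) (C.nu k) hcx hcn
          (fun z hz => C.rank (by rw [hfr]; exact h3) hk (hAm z hz).1)
          (fun z hz => by
            obtain ⟨κ, hκ⟩ := ((hAm z hz).2.2.2 k hk1 hk2).2.2 h3
            exact ⟨κ, C.kap hk (hAm z hz).1 hκ⟩) htan
        exact ⟨B, hB, fun _ _ => hf⟩
      · have hd2 : d = 2 := by omega
        obtain ⟨B, hB, hf⟩ := lam_flat μ A (C.x k) (C.nu k) hcx hcn
          (fun z hz => C.dx_ne (by rw [hfr]; exact hd) hk (hAm z hz).1)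
          (fun z hz => by
            obtain ⟨κ, h1, h2⟩ := ((hAm z hz).2.2.2 k hk1 hk2).2.1 hd2
            have h4 : Curv Ω (C.x k z) (κ (C.x k z)) :=
              h1.self_of_nhdsWithin (ldef_frontier (C.df k hk z (hAm z hz).1))
            exact ⟨κ (C.x k z), C.kap hk (hAm z hz).1 h4⟩) htan
          (fun z hz => C.vertex (by rw [hfr]; exact hd) hk (hAm z hz).1
            (((hAm z hz).2.2.2 k hk1 hk2).2.1 hd2))
        exact ⟨B, hB, fun _ _ => hf⟩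
    · exact ⟨∅, measure_empty, fun h h' => absurd ⟨h, h'⟩ hk'⟩
  choose B hB hBf using hflat
  -- the length
  obtain ⟨B1, hB1, hfl1⟩ := exists_flat μ A
  have hlen1 : ∀ z ∈ A \ B1, fderiv ℝ (len C n) z = 0 := by
    intro z hz
    have hzU := (hAm z hz.1).1
    have h1 := (hfl1 z hz (EuclideanSpace ℝ (Fin d)) (fun z => C.x n z - g (C.x 0 z))
      (fun z hz => (C.cx n le_rfl z (hAm z hz).1).sub
        ((isom_cd g ∞).contDiffAt.comp z (C.cx 0 (Nat.zero_le _) z (hAm z hz).1)))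
      (fun z hz => sub_eq_zero.2 (hAm z hz).2.1)).1
    have hxn : DifferentiableAt ℝ (C.x n) z := (C.cx n le_rfl z hzU).differentiableAt (by simp)
    have hx0 : DifferentiableAt ℝ (C.x 0) z :=
      (C.cx 0 (Nat.zero_le _) z hzU).differentiableAt (by simp)
    obtain ⟨G, hG⟩ : ∃ G : EuclideanSpace ℝ (Fin d) →L[ℝ] EuclideanSpace ℝ (Fin d),
        ∀ v, G v = g.linearIsometryEquiv v :=
      ⟨(g.linearIsometryEquiv.toContinuousLinearEquiv : _ →L[ℝ] _), fun v => rfl⟩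
    have h2 : HasFDerivAt (fun z => g (C.x 0 z)) (G.comp (fderiv ℝ (C.x 0) z)) z := by
      have h3 : (fun z => g (C.x 0 z)) = fun z => G (C.x 0 z) + g 0 :=
        funext fun z => by rw [hG]; exact isom_eq g _
      rw [h3]
      exact (G.hasFDerivAt.comp z hx0.hasFDerivAt).add_const _
    have h3 := (hxn.hasFDerivAt.sub h2).fderiv
    have h4 : fderiv ℝ (fun z => C.x n z - g (C.x 0 z)) z = _ := h3
    rw [h1] at h4
    have h5 : ∀ ζ, fderiv ℝ (C.x n) z ζ = g.linearIsometryEquiv (fderiv ℝ (C.x 0) z ζ) := by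
      intro ζ
      have h6 := congrArg (fun l : Z →L[ℝ] EuclideanSpace ℝ (Fin d) => l ζ) h4
      rw [← hG]
      exact (sub_eq_zero.1 h6.symm)
    ext ζ
    rw [dlen C le_rfl hzU ζ, h5, (hAm z hz.1).2.2.1, LinearIsometryEquiv.inner_map_map, sub_self]
    rfl
  obtain ⟨B2, hB2, hfl2⟩ := exists_flat μ (A \ B1)
  have hlen2 : ∀ z0 ∈ (A \ B1) \ B2, ∀ M : ℕ, (fun z => len C n z - len C n z0) =O[𝓝 z0]
      fun z => ‖z - z0‖ ^ M := by
    intro z0 hz0 M
    have hzU := (hAm z0 hz0.1.1).1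
    have hc := len_cd C le_rfl hzU
    cases M with
    | zero =>
      simp only [pow_zero]
      exact (hc.continuousAt.sub (continuousAt_const (y := len C n z0))).tendsto.isBigO_one ℝ
    | succ M =>
      refine isBigO_succ ?_ ?_
      · have h1 : ContDiffAt ℝ 1 (len C n) z0 := hc.of_le (by norm_cast)
        filter_upwards [h1.eventually (by simp)] with z hz
        exact hz.differentiableAt one_ne_zero
      · exact (hfl2 z0 hz0 (Z →L[ℝ] ℝ) (fun z => fderiv ℝ (len C n) z)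
          (fun z hz => (len_cd C le_rfl (hAm z hz.1).1).fderiv_right le_rfl) hlen1).2 M
  obtain ⟨B', hB', happ⟩ := exists_appr μ A
  refine measure_mono_null (t := (B' ∪ (B1 ∪ B2)) ∪ ⋃ k, B k) ?_
    (measure_union_null (measure_union_null hB' (measure_union_null hB1 hB2))
      (measure_iUnion_null hB))
  intro z0 hz0
  by_contra hcon
  have hzB' : z0 ∉ B' := fun h => hcon (Or.inl (Or.inl h))
  have hzB1 : z0 ∉ B1 := fun h => hcon (Or.inl (Or.inr (Or.inl h)))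
  have hzB2 : z0 ∉ B2 := fun h => hcon (Or.inl (Or.inr (Or.inr h)))
  have hzB : ∀ k, z0 ∉ B k := fun k h => hcon (Or.inr (mem_iUnion.2 ⟨k, h⟩))
  obtain ⟨hU, hx0, he0, -⟩ := hAm z0 hz0
  have hlam : ∀ k, ∃ lam : ℝ, 1 ≤ k → k < n → Sph (C.x k) (C.nu k) z0 lam := by
    intro k
    by_cases hk : 1 ≤ k ∧ k < n
    · obtain ⟨lam, h⟩ := hBf k hk.1 hk.2 z0 ⟨hz0, hzB k⟩
      exact ⟨lam, fun _ _ => h⟩
    · exact ⟨0, fun h h' => absurd ⟨h, h'⟩ hk⟩
  choose lam hlam using hlam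
  obtain ⟨ν, hν1, hν2⟩ : ∃ ν : ℕ → Z → EuclideanSpace ℝ (Fin d), (∀ k ≤ n, ν k = C.nu k) ∧
      ∀ k, ¬ k ≤ n → ν k = fun _ => C.e 0 z0 :=
    ⟨fun k => if k ≤ n then C.nu k else fun _ => C.e 0 z0, fun k hk => if_pos hk,
      fun k hk => if_neg hk⟩
  have hνc : ∀ k, ContinuousAt (ν k) z0 := by
    intro k
    by_cases hk : k ≤ n
    · rw [hν1 k hk]; exact (C.cn k hk z0 hU).continuousAt
    · rw [hν2 k hk]; exact continuousAt_const
  have hνu : ∀ k, ∀ z ∈ A, ⟪ν k z, ν k z⟫_ℝ = 1 := by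
    intro k z hz
    by_cases hk : k ≤ n
    · rw [hν1 k hk]; exact C.nu_unit hk (hAm z hz).1
    · rw [hν2 k hk]; exact C.ee 0 (Nat.zero_le _) z0 hU
  have htr : ∀ k < n, ⟪ν (k + 1) z0, C.e k z0⟫_ℝ ≠ 0 := by
    intro k hk h0
    rw [hν1 (k + 1) hk] at h0
    apply C.tr (k + 1) hk z0 hU
    change ⟪C.nu (k + 1) z0, _⟫_ℝ = 0
    rw [C.refl k hk z0]
    change ⟪C.nu (k + 1) z0, rf (C.nu (k + 1) z0) (C.e k z0)⟫_ℝ = 0
    unfold rf
    rw [inner_sub_right, inner_smul_right, h0]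
    ring
  obtain ⟨N, rfl⟩ : ∃ N, n = N + 1 := ⟨n - 1, by omega⟩
  refine red2 (Z := Z) hd (N := N) (g := g) (x := C.x) (e := C.e) (ν := ν) (L := C.L) (A := A)
    (z0 := z0) (lam := lam) hz0
    (fun k hk => (C.cx k (by omega) z0 hU).differentiableAt (by simp))
    (fun k hk => (C.ce k (by omega) z0 hU).differentiableAt (by simp))
    (fun k hk => (C.cL k (by omega) z0 hU).continuousAt) hνc
    (fun k hk => C.Lpos k (by omega) z0 hU) (fun k hk => C.step k (by omega))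
    (fun k hk z => by rw [hν1 (k + 1) (by omega)]; exact C.refl k (by omega) z) hνu
    (fun z hz => C.ee 0 (Nat.zero_le _) z (hAm z hz).1) (fun k hk => htr k (by omega))
    (by rw [hν1 0 (Nat.zero_le _)]; exact C.tr 0 (Nat.zero_le _) z0 hU)
    (fun z hz => by rw [← (hAm z hz).2.1]; exact C.step N (Nat.lt_succ_self N) z) ?_
    (hlen2 z0 ⟨⟨hz0, hzB1⟩, hzB2⟩)
    (fun k hk M => by
      rw [hν1 (k + 1) (by omega)]; exact (hlam (k + 1) (by omega) (by omega)).1 M)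
    (fun k hk M => by
      rw [hν1 (k + 1) (by omega)]; exact (hlam (k + 1) (by omega) (by omega)).2 M)
    (by rw [hν1 0 (Nat.zero_le _)]; exact C.surj 0 (Nat.zero_le _) z0 hU)
    (fun ζ => happ z0 ⟨hz0, hzB'⟩ ζ)
  rw [← he0]
  intro heq
  have h1 := C.refl N (Nat.lt_succ_self N) z0
  rw [← heq] at h1
  have h2 := htr N (Nat.lt_succ_self N)
  rw [hν1 (N + 1) le_rfl] at h2
  have h3 : (2 * ⟪C.nu (N + 1) z0, C.e N z0⟫_ℝ) • C.nu (N + 1) z0 = 0 := by
    have h4 : C.e N z0 = rf (C.nu (N + 1) z0) (C.e N z0) := h1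
    unfold rf at h4
    have h5 := sub_eq_self.1 h4.symm
    exact h5
  have h4 := C.nu_unit (le_refl (N + 1)) hU
  rcases smul_eq_zero.1 h3 with h5 | h5
  · exact h2 (by linarith)
  · rw [h5, inner_zero_left] at h4
    exact zero_ne_one h4

end M

end Pool.Agent.TH746.OB
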