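import Pool.Agent.TH746.OB.PolyC

set_option autoImplicit false

open Filter Topology

namespace Pool.Agent.TH746.OB

open Pool.Agent Pool.Agent.W567.IV W973.IV Pool.Agent.W460.IV Pool.Agent.TH746.UM

variable {n : ℕ}

theorem mat_orth (g : EuclideanSpace ℝ (Fin n) ≃ₗᵢ[ℝ] EuclideanSpace ℝ (Fin n)) :
    (mat g).transpose * mat g = 1 := by
  ext i j
  have h1 : ∀ (i k : Fin n), mat g k i = (g (EuclideanSpace.single i 1)) k := by
    intro i k
    have h2 := congrFun (mat_mulVec g (EuclideanSpace.single i 1)) k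
    rw [← h2]
    have h3 : WithLp.ofLp (EuclideanSpace.single i (1 : ℝ)) = Pi.single i 1 := rfl
    rw [h3, Matrix.mulVec_single_one]
    rfl
  rw [Matrix.mul_apply]
  simp only [Matrix.transpose_apply, h1]
  have h4 : ∑ k, (g (EuclideanSpace.single i 1)) k * (g (EuclideanSpace.single j 1)) k =
      inner ℝ (g (EuclideanSpace.single i 1)) (g (EuclideanSpace.single j 1)) := by
    rw [inner_dot]
    rfl
  rw [h4, g.inner_map_map]
  simp [EuclideanSpace.inner_single_left, Matrix.one_apply]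

/-- **The second model theorem.** The lines which are carried by reflections in given spheres and
hyperplanes to a line through the image of one of their points under a given isometry, the path
between the two points being of given length, lie in a hypersurface. -/
theorem model_poly2 (hn : 2 ≤ n) (N : ℕ) (D : ℕ → Mir n) (hD : ∀ k, okM (D k))
    (g : EuclideanSpace ℝ (Fin n) ≃ᵃⁱ[ℝ] EuclideanSpace ℝ (Fin n)) {ℓ : ℝ} (hℓ : ℓ ≠ 0) :
    ∃ P : MvPolynomial (Fin n ⊕ Fin n) ℂ, P ≠ 0 ∧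
      ∀ (p u : ℕ → EuclideanSpace ℝ (Fin n)) (fl : ℕ → ℝ) (τ : ℝ),
        (∀ k ≤ N, inner ℝ (u k) (u k) = 1) →
        (∀ k < N, p (k + 1) = p k + fl k • u k) →
        (∀ k < N, ∀ S : Sph n, D (k + 1) = Sum.inl S → 
          ‖p (k + 1) - ce S‖ ^ 2 = S.ρ ∧
          u (k + 1) = u k - (2 * inner ℝ (p (k + 1) - ce S) (u k) / S.ρ) • (p (k + 1) - ce S)) →
        (∀ k < N, ∀ H : Flat n, D (k + 1) = Sum.inr H → 
          inner ℝ (WithLp.toLp 2 H.ν) (p (k + 1)) = H.h ∧
          u (k + 1) = u k - (2 * inner ℝ (WithLp.toLp 2 H.ν) (u k)) •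
            (WithLp.toLp 2 H.ν : EuclideanSpace ℝ (Fin n))) →
        g (p 0 + τ • u 0) = p N + (ℓ + τ - ∑ i ∈ Finset.range N, fl i) • u N → ∀ c : ℝ, 0 < c →
        MvPolynomial.eval (Sum.elim (fun k => (((p 0) k : ℝ) : ℂ))
          (fun k => (((c • u 0) k : ℝ) : ℂ))) P = 0 := by
  obtain ⟨B, hB⟩ : ∃ B, B = mat g.linearIsometryEquiv := ⟨_, rfl⟩
  obtain ⟨A, hA⟩ : ∃ A, A = (unf D N).2.1 := ⟨_, rfl⟩
  obtain ⟨b, hb⟩ : ∃ b, b = (unf D N).2.2 := ⟨_, rfl⟩
  have hAo : A.transpose * A = 1 := by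
    rw [hA]
    refine unf_orth D N (fun k _ _ H hH => ?_) N le_rfl
    have := hD k
    rw [hH] at this
    exact this
  have hBo : B.transpose * B = 1 := by rw [hB]; exact mat_orth _
  have hABo : (A * B).transpose * (A * B) = 1 := by
    rw [Matrix.transpose_mul, Matrix.mul_assoc, ← Matrix.mul_assoc A.transpose, hAo,
      Matrix.one_mul, hBo]
  obtain ⟨P, hP, hP'⟩ := poly_C hn hABo (A.mulVec (WithLp.ofLp (g 0)) + b)
    (pow_ne_zero 2 hℓ) (unf D N).1 (unf_pos D hD N)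
  refine ⟨P, hP, ?_⟩
  intro p u fl τ hu1 hfl hS hH hcl c hc
  obtain ⟨T, hTd⟩ : ∃ T, T = ∑ i ∈ Finset.range N, fl i := ⟨_, rfl⟩
  obtain ⟨ch, h1, h2, h3⟩ := dyn3 N p u fl D (fun k hk => hu1 k hk.le) hfl
    (fun k hk S hk' => ⟨by have := hD (k + 1); rw [hk'] at this; exact this, hS k hk S hk'⟩)
    (fun k hk H hk' => ⟨by have := hD (k + 1); rw [hk'] at this; exact this, hH k hk H hk'⟩)
    0 c hc
  rw [zero_smul, add_zero, ← hA, ← hb, ← hTd, sub_zero] at h3
  rw [zero_smul, add_zero] at h2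
  rw [← hTd] at hcl
  refine hP' (cl (p 0) (c • u 0)) ch ((τ / c : ℝ) : ℂ) ((ℓ / c : ℝ) : ℂ) h1 h2 ?_
  rw [h3]
  have hgaff : ∀ x, g x = g.linearIsometryEquiv x + g 0 := by
    intro x
    have h4 := g.map_vadd 0 x
    simp only [vadd_eq_add, add_zero] at h4
    exact h4
  have hcastM : ∀ (M : Matrix (Fin n) (Fin n) ℝ) (v : Fin n → ℝ),
      (castM ℂ M).mulVec (fun k => ((v k : ℝ) : ℂ)) = fun k => ((M.mulVec v k : ℝ) : ℂ) := by
    intro M v
    funext k
    simp [castM, Matrix.mulVec, dotProduct]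
  constructor
  · -- the point
    have e1 : (cl (p 0) (c • u 0)).1 + ((τ / c : ℝ) : ℂ) • (cl (p 0) (c • u 0)).2 =
        fun k => ((WithLp.ofLp (p 0 + τ • u 0) k : ℝ) : ℂ) := by
      funext k
      simp only [cl, Pi.add_apply, Pi.smul_apply, smul_eq_mul, PiLp.add_apply, PiLp.smul_apply]
      rw [← Complex.ofReal_mul, ← Complex.ofReal_add]
      congr 1
      field_simp
    have e2 : cv ℂ (A.mulVec (WithLp.ofLp (g 0)) + b) =
        fun k => (((A.mulVec (WithLp.ofLp (g 0)) + b) k : ℝ) : ℂ) := rfl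
    rw [e1, hcastM, e2]
    have e3 : ∀ k, ((A * B).mulVec (WithLp.ofLp (p 0 + τ • u 0)) +
        (A.mulVec (WithLp.ofLp (g 0)) + b)) k =
        (Lm A (p N - T • u N) + WithLp.toLp 2 b) k + (τ / c + ℓ / c) * Lm A (c • u N) k := by
      intro k
      have e4 : (A * B).mulVec (WithLp.ofLp (p 0 + τ • u 0)) +
          (A.mulVec (WithLp.ofLp (g 0)) + b) =
          WithLp.ofLp (Lm A (g (p 0 + τ • u 0)) + WithLp.toLp 2 b) := by
        rw [← Matrix.mulVec_mulVec, hB, mat_mulVec, ← add_assoc, ← Matrix.mulVec_add,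
          hgaff (p 0 + τ • u 0)]
        rfl
      rw [e4, hcl]
      have e5 : p N + (ℓ + τ - T) • u N = (p N - T • u N) + ((τ / c + ℓ / c) * c) • u N := by
        have : (τ / c + ℓ / c) * c = ℓ + τ := by field_simp; ring
        rw [this]
        module
      rw [e5, map_add, mul_smul, map_smul (Lm A) (τ / c + ℓ / c)]
      simp only [PiLp.add_apply, PiLp.smul_apply, smul_eq_mul]
      ring
    funext k
    have e6 := e3 k
    simp only [Pi.add_apply] at e6
    simp only [cl, Pi.add_apply, Pi.smul_apply, smul_eq_mul]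
    have e7 := congrArg (fun x : ℝ => (x : ℂ)) e6
    push_cast at e7 ⊢
    linear_combination e7
  · -- the length
    have e1 : (cl (p 0) (c • u 0)).2 ⬝ᵥ (cl (p 0) (c • u 0)).2 =
        ((inner ℝ (c • u 0) (c • u 0) : ℝ) : ℂ) := dot_cast _ _
    have e2 : inner ℝ (c • u 0) (c • u 0) = c ^ 2 := by
      rw [real_inner_smul_left, real_inner_smul_right, hu1 0 (Nat.zero_le _)]
      ring
    rw [e1, e2]
    have e3 : ((ℓ / c : ℝ) : ℂ) ^ 2 * ((c ^ 2 : ℝ) : ℂ) = ((ℓ ^ 2 : ℝ) : ℂ) := by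
      rw [← Complex.ofReal_pow, ← Complex.ofReal_mul]
      congr 1
      field_simp
    rw [e3]
    rfl

end Pool.Agent.TH746.OB
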