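import Pool.Agent.TH746.OB.SpecQ
import Pool.Agent.W567.IV.NoClosed
import Pool.Agent.W567.IV.Red
import Pool.Agent.W335.IV.Germ2

/-! There is no generic chain which is closed at a point of the line with constant length. -/

set_option autoImplicit false

open scoped Classical

set_option linter.unusedSectionVars false

namespace Pool.Agent.TH746.OB

open Pool.Agent.W567.IV Filter

variable {n : ℕ}

/-- The point of the line `l` at the time `τ` is carried by the affine map `x ↦ A x + b` to the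
point of the line `l'` at the time `τ + T`, and the path travelled in the time `T` has length with
square `ℓ`. -/
def ClC {F : Type} [Field F] [Algebra ℂ F] (A : Matrix (Fin n) (Fin n) ℝ) (b : Fin n → ℝ) (ℓ : ℝ)
    (l l' : Line n F) (τ T : F) : Prop :=
  (castM F A).mulVec (l.1 + τ • l.2) + cv F b = l'.1 + (τ + T) • l'.2 ∧
    T ^ 2 * (l.2 ⬝ᵥ l.2) = algebraMap ℂ F ((ℓ : ℝ) : ℂ)

lemma castM_dot {F : Type} [Field F] [Algebra ℂ F] {A : Matrix (Fin n) (Fin n) ℝ}
    (hA : A.transpose * A = 1) (v : Fin n → F) :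
    (castM F A).mulVec v ⬝ᵥ (castM F A).mulVec v = v ⬝ᵥ v := by
  have h1 : (castM F A).transpose * castM F A = 1 := by
    have h2 : castM F (A.transpose * A) = 1 := by rw [hA]; exact castM_one F
    rw [← h2]
    ext i j
    simp only [castM, Matrix.mul_apply, Matrix.transpose_apply, Matrix.map_apply, Complex.ofReal_sum,
      Complex.ofReal_mul, map_sum, map_mul]
  rw [Matrix.dotProduct_mulVec, ← Matrix.mulVec_transpose, Matrix.mulVec_mulVec, h1,
    Matrix.one_mulVec]

lemma castM_neg {F : Type} [Field F] [Algebra ℂ F] (A : Matrix (Fin n) (Fin n) ℝ) (v : Fin n → F) :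
    (castM F (-A)).mulVec v = -(castM F A).mulVec v := by
  have : castM F (-A) = -castM F A := by
    ext i j
    simp [castM]
  rw [this, Matrix.neg_mulVec]

/-- the case of the empty word -/
lemma empty_case (hn : 2 ≤ n) {F : Type} [Field F] [Algebra ℂ F] {A : Matrix (Fin n) (Fin n) ℝ}
    {b : Fin n → ℝ} {ℓ : ℝ} (hℓ : ℓ ≠ 0) {l : Line n F} (hG : Gen l) {τ T : F}
    (h : ClC A b ℓ l l τ T)
    (hpar : ∀ i j, (castM F A).mulVec l.2 i * l.2 j = (castM F A).mulVec l.2 j * l.2 i) : False := by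
  obtain ⟨h1, h2⟩ := h
  have hq := Gen_q hn l hG
  -- the polynomial relations
  let p : Fin n → Fin n → MvPolynomial (Fin n ⊕ Fin n) ℂ := fun i j =>
    (∑ k, MvPolynomial.C ((A i k : ℝ) : ℂ) * MvPolynomial.X (Sum.inl k) +
      MvPolynomial.C ((b i : ℝ) : ℂ) - MvPolynomial.X (Sum.inl i)) * MvPolynomial.X (Sum.inr j) -
    (∑ k, MvPolynomial.C ((A j k : ℝ) : ℂ) * MvPolynomial.X (Sum.inl k) +
      MvPolynomial.C ((b j : ℝ) : ℂ) - MvPolynomial.X (Sum.inl j)) * MvPolynomial.X (Sum.inr i)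
  have hcomp : ∀ i, ∑ k, algebraMap ℂ F ((A i k : ℝ) : ℂ) * l.1 k +
      algebraMap ℂ F ((b i : ℝ) : ℂ) - l.1 i = (τ + T) * l.2 i - τ * (castM F A).mulVec l.2 i := by
    intro i
    have h3 := congrFun h1 i
    rw [Matrix.mulVec_add, Matrix.mulVec_smul] at h3
    simp only [Pi.add_apply, Pi.smul_apply, smul_eq_mul] at h3
    have h4 : (castM F A).mulVec l.1 i = ∑ k, algebraMap ℂ F ((A i k : ℝ) : ℂ) * l.1 k := rfl
    have h5 : cv F b i = algebraMap ℂ F ((b i : ℝ) : ℂ) := rfl
    rw [h4, h5] at h3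
    linear_combination h3
  have hp0 : ∀ i j, p i j = 0 := by
    intro i j
    refine hG (a₁ := p i j) (a₂ := 0) ?_
    rw [map_zero]
    simp only [p, map_sub, map_mul, map_add, map_sum, MvPolynomial.aeval_C, MvPolynomial.aeval_X,
      Sum.elim_inl, Sum.elim_inr]
    rw [hcomp i, hcomp j]
    linear_combination (-τ) * hpar i j
  have hj : ∀ i : Fin n, ∃ j : Fin n, j ≠ i := by
    intro i
    have : Nontrivial (Fin n) := Fin.nontrivial_iff_two_le.mpr hn
    exact exists_ne i
  have hb : ∀ i, b i = 0 := by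
    intro i
    obtain ⟨j, hji⟩ := hj i
    have h3 := congrArg (MvPolynomial.eval (Sum.elim (fun _ => (0 : ℂ))
      (fun k => if k = j then (1 : ℂ) else 0) : Fin n ⊕ Fin n → ℂ)) (hp0 i j)
    simp only [p, map_sub, map_mul, map_add, map_sum, MvPolynomial.eval_C, MvPolynomial.eval_X,
      Sum.elim_inl, Sum.elim_inr, map_zero, mul_zero, Finset.sum_const_zero, if_pos,
      if_neg hji.symm, mul_one, zero_add, sub_zero] at h3
    exact_mod_cast h3
  have hA : ∀ i k, A i k = (1 : Matrix (Fin n) (Fin n) ℝ) i k := by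
    intro i k
    obtain ⟨j, hji⟩ := hj i
    have h3 := congrArg (MvPolynomial.eval (Sum.elim (fun m => if m = k then (1 : ℂ) else 0)
      (fun m => if m = j then (1 : ℂ) else 0) : Fin n ⊕ Fin n → ℂ)) (hp0 i j)
    simp only [p, map_sub, map_mul, map_add, map_sum, MvPolynomial.eval_C, MvPolynomial.eval_X,
      Sum.elim_inl, Sum.elim_inr, map_zero, mul_zero, Finset.sum_ite_eq', Finset.mem_univ, if_true,
      if_neg hji.symm, mul_one, sub_zero, mul_ite, hb, Complex.ofReal_zero, add_zero] at h3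
    rw [Matrix.one_apply]
    split_ifs with hik
    · rw [if_pos hik] at h3
      have h4 : ((A i k : ℝ) : ℂ) = 1 := by linear_combination h3
      exact_mod_cast h4
    · rw [if_neg hik, sub_zero] at h3
      exact_mod_cast h3
  have hA1 : A = 1 := Matrix.ext hA
  have hb0 : cv F b = 0 := by
    funext i
    simp [cv, hb]
  rw [hA1, castM_one, Matrix.one_mulVec, hb0, add_zero] at h1
  have h3 : T • l.2 = 0 := by
    have h4 : l.1 + (τ + T) • l.2 - (l.1 + τ • l.2) = 0 := by rw [h1, sub_self]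
    rw [add_smul] at h4
    have h5 : l.1 + (τ • l.2 + T • l.2) - (l.1 + τ • l.2) = T • l.2 := by abel
    rwa [h5] at h4
  have h4 : T = 0 := by
    rcases smul_eq_zero.1 h3 with h5 | h5
    · exact h5
    · exfalso
      apply hq
      rw [h5]; simp
  rw [h4] at h2
  have h5 : algebraMap ℂ F ((ℓ : ℝ) : ℂ) = 0 := by rw [← h2]; ring
  rw [FaithfulSMul.algebraMap_eq_zero_iff] at h5
  exact hℓ (by exact_mod_cast h5)

theorem no_C (hn : 2 ≤ n) {A : Matrix (Fin n) (Fin n) ℝ} (hA : A.transpose * A = 1)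
    {b : Fin n → ℝ} {ℓ : ℝ} (hℓ : ℓ ≠ 0) (W : List (Sph n)) (hW : ∀ T ∈ W, 0 < T.ρ)
    (F : Type) [Field F] [Algebra ℂ F] (l : Line n F) (c : Ch n F) (hG : Gen l)
    (hc : c.map Prod.fst = W) (hv : Val c l) (τ T : F) (hcl : ClC A b ℓ l (endl c l) τ T) :
    False := by
  have hs2 : S_spec2 := spec2_of W12.IV.sqrt_ W12.IV.tr W40.IV.gen_ W12.IV.w_
  have hs : S_spec := spec_of W12.IV.sqrt_ W12.IV.tr W40.IV.gen_ W12.IV.w_
  have hu : S_univ := univ_of hs
  have hdet : A.det ≠ 0 := by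
    intro h0
    have h1 := congrArg Matrix.det hA
    rw [Matrix.det_mul, h0, mul_zero, Matrix.det_one] at h1
    exact zero_ne_one h1
  have hdet' : (-A).det ≠ 0 := by
    rw [Matrix.det_neg]
    exact mul_ne_zero (pow_ne_zero _ (by norm_num)) hdet
  have hq := Gen_q hn l hG
  have hWc : ∀ p ∈ c, 0 < p.1.ρ := by
    intro p hp
    apply hW
    rw [← hc]; exact List.mem_map_of_mem hp
  have hqe := endl_q c l hWc hq hv
  have hqa := castM_dot (F := F) hA l.2
  by_cases hpar : ∀ i j, (castM F A).mulVec l.2 i * (endl c l).2 j =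
      (castM F A).mulVec l.2 j * (endl c l).2 i
  · -- parallel lines
    rcases eq_or_ne W [] with hW0 | hW0
    · rw [hW0, List.map_eq_nil_iff] at hc
      subst hc
      exact empty_case hn hℓ hG hcl hpar
    · obtain ⟨lam, hlam⟩ : ∃ lam : F, lam = ((castM F A).mulVec l.2 ⬝ᵥ (endl c l).2) /
        (l.2 ⬝ᵥ l.2) := ⟨_, rfl⟩
      have h1 : ∀ j, (endl c l).2 j = lam * (castM F A).mulVec l.2 j := by
        intro j
        have h2 : (l.2 ⬝ᵥ l.2) * (endl c l).2 j =
            ((castM F A).mulVec l.2 ⬝ᵥ (endl c l).2) * (castM F A).mulVec l.2 j := by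
          rw [← hqa]
          unfold dotProduct
          rw [Finset.sum_mul, Finset.sum_mul]
          refine Finset.sum_congr rfl fun i _ => ?_
          linear_combination ((castM F A).mulVec l.2 i) * hpar i j
        rw [hlam]
        field_simp
        linear_combination h2
      have h2 : (endl c l).2 = lam • (castM F A).mulVec l.2 := funext h1
      have h3 : lam ^ 2 = 1 := by
        rw [h2, smul_dotProduct, dotProduct_smul, hqa, smul_eq_mul, smul_eq_mul] at hqe
        have h4 : (lam ^ 2 - 1) * (l.2 ⬝ᵥ l.2) = 0 := by linear_combination hqe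
        have h5 := (mul_eq_zero.1 h4).resolve_right hq
        linear_combination h5
      have h4 : (lam - 1) * (lam + 1) = 0 := by linear_combination h3
      rcases mul_eq_zero.1 h4 with h5 | h5
      · refine no_closed hs2 hu hn W hW0 hW A hdet F l c hG hc hv ?_
        rw [h2, sub_eq_zero.1 h5, one_smul]
      · refine no_closed hs2 hu hn W hW0 hW (-A) hdet' F l c hG hc hv ?_
        rw [h2, eq_neg_of_add_eq_zero_left h5, castM_neg, neg_smul, one_smul]
  · -- the time is in the field of the universal chain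
    push Not at hpar
    obtain ⟨i, j, hD⟩ := hpar
    obtain ⟨U, iU, iUA, lU, cU, hGU, hcU, hvU, hU⟩ := hu n hn W hW
    obtain ⟨φ, ⟨g1, g2⟩, g3⟩ := hU F l c hG hc hv
    have hl : mapL φ lU = l := Prod.ext g1 g2
    have hc' : mapC φ cU = c := g3
    obtain ⟨F1, i1, i1A, l1, c1, hG1, hc1, hv1, hns⟩ := spec_q hn W hW
    obtain ⟨ψ, ⟨k1, k2⟩, -⟩ := hU F1 l1 c1 hG1 hc1 hv1
    obtain ⟨a, ha⟩ : ∃ a : Fin n → U, a = (castM U A).mulVec lU.2 := ⟨_, rfl⟩
    obtain ⟨v, hv'⟩ : ∃ v : Fin n → U, v = (endl cU lU).2 := ⟨_, rfl⟩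
    obtain ⟨R, hR⟩ : ∃ R : Fin n → U, R = (castM U A).mulVec lU.1 + cv U b - (endl cU lU).1 :=
      ⟨_, rfl⟩
    have hφa : ∀ k, φ (a k) = (castM F A).mulVec l.2 k := by
      intro k
      rw [ha, ← g2, ← castM_map]
      rfl
    have hend : endl c l = mapL φ (endl cU lU) := by rw [← endl_map, hl, hc']
    have hφv : ∀ k, φ (v k) = (endl c l).2 k := by
      intro k
      rw [hv', hend]
      rfl
    have hφR : ∀ k, φ (R k) = (castM F A).mulVec l.1 k + cv F b k - (endl c l).1 k := by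
      intro k
      rw [hR, hend, ← g1, ← castM_map]
      simp only [Pi.add_apply, Pi.sub_apply, map_add, map_sub, Function.comp_apply, mapL, cv,
        AlgHom.commutes]
    obtain ⟨h1, h2⟩ := hcl
    have hRk : ∀ k, φ (R k) = (τ + T) * φ (v k) - τ * φ (a k) := by
      intro k
      have h3 := congrFun h1 k
      rw [Matrix.mulVec_add, Matrix.mulVec_smul] at h3
      simp only [Pi.add_apply, Pi.smul_apply, smul_eq_mul] at h3
      rw [hφR, hφv, hφa]
      linear_combination h3
    obtain ⟨D, hDd⟩ : ∃ D, D = a i * v j - a j * v i := ⟨_, rfl⟩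
    have hφD : φ D ≠ 0 := by
      rw [hDd, map_sub, map_mul, map_mul, hφa, hφa, hφv, hφv]
      exact sub_ne_zero.2 hD
    have hD0 : D ≠ 0 := by
      rintro rfl
      exact hφD (map_zero φ)
    obtain ⟨TU, hTU⟩ : ∃ TU, TU = (R i * v j - R j * v i - R i * a j + R j * a i) / D := ⟨_, rfl⟩
    have hφT : φ TU = T := by
      rw [hTU, map_div₀, div_eq_iff hφD, hDd]
      simp only [map_sub, map_mul, map_add]
      rw [hRk i, hRk j]
      ring
    have hsq : TU ^ 2 * (lU.2 ⬝ᵥ lU.2) = algebraMap ℂ U ((ℓ : ℝ) : ℂ) := by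
      apply φ.toRingHom.injective
      change φ (TU ^ 2 * (lU.2 ⬝ᵥ lU.2)) = φ (algebraMap ℂ U ((ℓ : ℝ) : ℂ))
      rw [map_mul, map_pow, hφT, dot_map, g2, AlgHom.commutes]
      exact h2
    obtain ⟨s, hs'⟩ := IsAlgClosed.exists_pow_nat_eq (((ℓ : ℝ) : ℂ)) (n := 2) two_pos
    have hTU0 : TU ≠ 0 := by
      rintro rfl
      have h5 : algebraMap ℂ U ((ℓ : ℝ) : ℂ) = 0 := by rw [← hsq]; ring
      rw [FaithfulSMul.algebraMap_eq_zero_iff] at h5
      exact hℓ (by exact_mod_cast h5)
    apply hns (ψ (algebraMap ℂ U s / TU))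
    have h6 : (algebraMap ℂ U s / TU) ^ 2 = lU.2 ⬝ᵥ lU.2 := by
      rw [div_pow, ← map_pow, hs', ← hsq]
      field_simp
    rw [← map_pow, h6, dot_map, k2]

end Pool.Agent.TH746.OB
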