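import Pool.Agent.TH746.OB.Model2
import Pool.Agent.TH746.UM.NoOpen

set_option autoImplicit false

open Set Filter Topology Asymptotics
open scoped InnerProductSpace ContDiff
open Pool.Agent.H721R2.Quart Pool.Agent.H721R2.Ivrii

namespace Pool.Agent.TH746.OB

open Pool.Agent.TH746.UM Pool.Agent.W567.IV W973.IV

variable {n : ℕ}

/-- The model chain is not closed at a point of the line, with constant length, for all lines of an
open set. -/
theorem no_open2 (hn : 2 ≤ n) {N : ℕ}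
    {g : EuclideanSpace ℝ (Fin n) ≃ᵃⁱ[ℝ] EuclideanSpace ℝ (Fin n)}
    {p u ν : ℕ → EuclideanSpace ℝ (Fin n)} {lam : ℕ → ℝ} {ℓ : ℝ} (hℓ : ℓ ≠ 0)
    (hν : ∀ k, ⟪ν k, ν k⟫_ℝ = 1)
    (hu0 : ⟪u 0, u 0⟫_ℝ = 1)
    {T : ℕ → EuclideanSpace ℝ (Fin n) × EuclideanSpace ℝ (Fin n) → ℝ}
    {s : ℕ → EuclideanSpace ℝ (Fin n) × EuclideanSpace ℝ (Fin n) →
      EuclideanSpace ℝ (Fin n) × EuclideanSpace ℝ (Fin n)}
    (hs0 : s 0 = id)
    (hs1 : ∀ k < N, ∀ y, s (k + 1) y = ((s k y).1 + T k (s k y) • (s k y).2,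
        rf (dir (gradient (mir (p (k + 1)) (ν (k + 1)) (lam (k + 1)))
          ((s k y).1 + T k (s k y) • (s k y).2))) (s k y).2))
    (hz : ∀ k < N, ∀ᶠ y in 𝓝 (p 0, u 0),
      mir (p (k + 1)) (ν (k + 1)) (lam (k + 1)) (s (k + 1) y).1 = 0)
    (hcl : ∀ᶠ y in 𝓝 (p 0, u 0), ∃ τ : ℝ, g (y.1 + τ • y.2) =
      (s N y).1 + (ℓ / ‖y.2‖ + τ - ∑ k ∈ Finset.range N, T k (s k y)) • (s N y).2) :
    False := by
  obtain ⟨D, hD⟩ : ∃ D : ℕ → Mir n, D = fun k => toMir (p k) (ν k) (lam k) := ⟨_, rfl⟩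
  obtain ⟨P, hP, hP'⟩ := model_poly2 hn N D (by intro k; rw [hD]; exact toMir_ok (hν k)) g hℓ
  have hall : ∀ᶠ y in 𝓝 (p 0, u 0), ∀ k ∈ Set.Iio N,
      mir (p (k + 1)) (ν (k + 1)) (lam (k + 1)) (s (k + 1) y).1 = 0 := by
    rw [Filter.eventually_all_finite (Set.finite_Iio N)]
    exact fun k hk => hz k hk
  have hev : ∀ᶠ y : EuclideanSpace ℝ (Fin n) × EuclideanSpace ℝ (Fin n) in 𝓝 (p 0, u 0),
      MvPolynomial.eval (Sum.elim (fun k => ((y.1 k : ℝ) : ℂ)) (fun k => ((y.2 k : ℝ) : ℂ))) P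
        = 0 := by
    have hy2ne : ∀ᶠ y : EuclideanSpace ℝ (Fin n) × EuclideanSpace ℝ (Fin n) in 𝓝 (p 0, u 0),
        y.2 ≠ 0 := by
      refine continuousAt_snd.eventually_ne ?_
      intro h
      simp only at h
      rw [h, inner_zero_left] at hu0
      exact zero_ne_one hu0
    filter_upwards [hall, hcl, hy2ne] with y h1 ⟨τ, h2⟩ h4
    obtain ⟨c, hc⟩ : ∃ c, c = ‖y.2‖ := ⟨_, rfl⟩
    have hc0 : 0 < c := by rw [hc]; exact norm_pos_iff.2 h4
    have hyy : ⟪y.2, y.2⟫_ℝ = c ^ 2 := by rw [hc, real_inner_self_eq_norm_sq]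
    rw [← hc] at h2
    have hin : ∀ k ≤ N, ⟪(s k y).2, (s k y).2⟫_ℝ = c ^ 2 := by
      intro k
      induction k with
      | zero => intro _; rw [hs0]; exact hyy
      | succ k ih =>
        intro hk
        have h5 := h1 k hk
        rw [hs1 k hk] at h5 ⊢
        simp only at h5 ⊢
        have h6 := mir_unit (hν (k + 1)) h5
        have h7 : ⟪dir (gradient (mir (p (k + 1)) (ν (k + 1)) (lam (k + 1)))
            ((s k y).1 + T k (s k y) • (s k y).2)), dir (gradient (mir (p (k + 1)) (ν (k + 1))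
            (lam (k + 1))) ((s k y).1 + T k (s k y) • (s k y).2))⟫_ℝ = 1 := by
          refine dir_unit ?_
          intro h8
          rw [h8, inner_zero_left] at h6
          exact zero_ne_one h6
        rw [G3_rf_inner h7]
        exact ih (by omega)
    obtain ⟨q, hq⟩ : ∃ q : ℕ → EuclideanSpace ℝ (Fin n), q = fun k => (s k y).1 := ⟨_, rfl⟩
    obtain ⟨w, hw⟩ : ∃ w : ℕ → EuclideanSpace ℝ (Fin n), w = fun k => c⁻¹ • (s k y).2 := ⟨_, rfl⟩
    obtain ⟨fl, hfl⟩ : ∃ fl : ℕ → ℝ, fl = fun k => c * T k (s k y) := ⟨_, rfl⟩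
    have hwk : ∀ k, (s k y).2 = c • w k := by
      intro k
      rw [hw]
      simp only
      rw [smul_smul, mul_inv_cancel₀ hc0.ne', one_smul]
    have hq0 : q 0 = y.1 := by
      rw [hq]
      simp only
      rw [hs0]
      rfl
    have hw0 : c • w 0 = y.2 := by rw [← hwk 0, hs0]; rfl
    have hstep : ∀ k < N, q (k + 1) = q k + fl k • w k := by
      intro k hk
      rw [hq, hfl]
      simp only
      rw [hs1 k hk, hwk k]
      module
    have hrefl : ∀ k < N, w (k + 1) = rf (dir (gradient (mir (p (k + 1)) (ν (k + 1))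
        (lam (k + 1))) (q (k + 1)))) (w k) := by
      intro k hk
      rw [hw, hq]
      simp only
      rw [G3_rf_smul, hs1 k hk]
    have hmir : ∀ k < N, mir (p (k + 1)) (ν (k + 1)) (lam (k + 1)) (q (k + 1)) = 0 := by
      intro k hk
      rw [hq]
      exact h1 k hk
    have h10 := hP' q w fl (c * τ) ?_ hstep ?_ ?_ ?_ c hc0
    · rw [hq0, hw0] at h10
      exact h10
    · intro k hk
      rw [hw]
      simp only
      rw [real_inner_smul_left, real_inner_smul_right, hin k hk]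
      field_simp
    · intro k hk S hS
      rw [hD] at hS
      obtain ⟨a1, a2⟩ := toMir_sph (v := w k) (hν (k + 1)) hS (hmir k hk)
      exact ⟨a1, by rw [hrefl k hk, a2]⟩
    · intro k hk H hH
      rw [hD] at hH
      obtain ⟨a1, a2⟩ := toMir_flat (v := w k) (hν (k + 1)) hH (hmir k hk)
      exact ⟨a1, by rw [hrefl k hk, a2]⟩
    · have e1 : q 0 + (c * τ) • w 0 = y.1 + τ • y.2 := by
        rw [hq0, ← hw0]
        module
      have e2 : ∑ i ∈ Finset.range N, fl i = c * ∑ k ∈ Finset.range N, T k (s k y) := by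
        rw [hfl, Finset.mul_sum]
      have e3 : q N = (s N y).1 := by rw [hq]
      rw [e1, h2, e2, e3, hwk N, smul_smul]
      congr 2
      field_simp
  apply hP
  refine poly_zero P (Sum.elim (fun k => p 0 k) (fun k => u 0 k)) ?_
  have hcont : Continuous (fun x : Fin n ⊕ Fin n → ℝ =>
      ((WithLp.toLp 2 (fun k => x (Sum.inl k)), WithLp.toLp 2 (fun k => x (Sum.inr k))) :
        EuclideanSpace ℝ (Fin n) × EuclideanSpace ℝ (Fin n))) := by
    refine Continuous.prodMk ?_ ?_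
    · exact (PiLp.continuous_toLp 2 _).comp (continuous_pi fun k => continuous_apply _)
    · exact (PiLp.continuous_toLp 2 _).comp (continuous_pi fun k => continuous_apply _)
  have hten := hcont.tendsto (Sum.elim (fun k => p 0 k) (fun k => u 0 k))
  filter_upwards [hten.eventually hev] with x hx
  have e : (fun i => ((x i : ℝ) : ℂ)) = Sum.elim (fun k => ((x (Sum.inl k) : ℝ) : ℂ))
      (fun k => ((x (Sum.inr k) : ℝ) : ℂ)) := by
    funext i
    rcases i with i | i <;> rfl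
  rw [e]
  exact hx

end Pool.Agent.TH746.OB
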