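import Pool.Agent.TH746.OB.NoC
import Pool.Agent.TH746.UM.Model

/-! The lines with a closed chain of constant length lie in a hypersurface. -/

set_option autoImplicit false

open scoped Classical

namespace Pool.Agent.TH746.OB

open Pool.Agent.W567.IV Filter Pool.W335.IV Pool.Agent.TH746.UM Pool.Agent.W460.IV W973.IV
open Pool.Agent

section G
variable {I : Type} (φ : Ultrafilter I) {n : ℕ}

lemma wval_gl (W : List (Sph n)) : ∀ (c : I → Ch n ℂ) (x : I → Line n ℂ),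
    (∀ i, (c i).map Prod.fst = W) → (∀ i, WVal (c i) (x i)) → WVal (gc φ W c) (gl φ x) := by
  induction W with
  | nil => intro c x _ _; simp only [gc, WVal]
  | cons S W ih =>
    intro c x h hv
    have e := fun i => decomp (h i)
    have hv' : ∀ i, WVal (c i).tail (x i) ∧
        ((c i).headD (S, 0)).2 ^ 2 = DD S (endl (c i).tail (x i)) := by
      intro i
      have := hv i
      rw [(e i).1] at this
      exact this
    simp only [gc, WVal]
    refine ⟨ih _ x (fun i => (e i).2) (fun i => (hv' i).1), ?_⟩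
    rw [endl_gl φ W _ x (fun i => (e i).2), DD_gl, gs_pow]
    congr 1
    funext i
    exact (hv' i).2

lemma clc_gl {A : Matrix (Fin n) (Fin n) ℝ} {b : Fin n → ℝ} {ℓ : ℝ} (l l' : I → Line n ℂ)
    (τ T : I → ℂ) (h : ∀ i, ClC A b ℓ (l i) (l' i) (τ i) (T i)) :
    ClC A b ℓ (gl φ l) (gl φ l') (gs φ τ) (gs φ T) := by
  constructor
  · unfold gl
    simp only
    have e1 : cv (GG φ) b = gv φ (fun _ => cv ℂ b) := rfl
    rw [smul_gv, add_gv, mulVec_gv, e1, add_gv, gs_add, smul_gv, add_gv]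
    congr 1
    funext i
    exact (h i).1
  · have e2 : (gl φ l).2 ⬝ᵥ (gl φ l).2 = gs φ (fun i => (l i).2 ⬝ᵥ (l i).2) := dot_gv φ _ _
    rw [e2, gs_pow, gs_mul, alg_eq]
    congr 1
    funext i
    exact (h i).2

end G

variable {n : ℕ}

theorem germC (A : Matrix (Fin n) (Fin n) ℝ) (b : Fin n → ℝ) (ℓ : ℝ) (W : List (Sph n)) (I : Type)
    (l : I → Line n ℂ) (c : I → Ch n ℂ) (τ T : I → ℂ)
    (hW : ∀ i, (c i).map Prod.fst = W) (hV : ∀ i, WVal (c i) (l i))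
    (hC : ∀ i, ClC A b ℓ (l i) (endl (c i) (l i)) (τ i) (T i))
    (hP : ∀ P : MvPolynomial (Fin n ⊕ Fin n) ℂ, P ≠ 0 →
      ∃ i, MvPolynomial.eval (Sum.elim (l i).1 (l i).2) P ≠ 0) :
    ∃ (F : Type) (_ : Field F) (_ : Algebra ℂ F) (l' : Line n F) (c' : Ch n F) (τ' T' : F),
      Gen l' ∧ c'.map Prod.fst = W ∧ WVal c' l' ∧ ClC A b ℓ l' (endl c' l') τ' T' := by
  -- the ultrafilter
  have hS : ∃ φ : Ultrafilter I, ∀ P : MvPolynomial (Fin n ⊕ Fin n) ℂ, P ≠ 0 →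
      {i | MvPolynomial.eval (Sum.elim (l i).1 (l i).2) P ≠ 0} ∈ φ := by
    have key : ∀ T : Finset (Set I), (↑T : Set (Set I)) ⊆
        {s | ∃ P : MvPolynomial (Fin n ⊕ Fin n) ℂ, P ≠ 0 ∧
          s = {i | MvPolynomial.eval (Sum.elim (l i).1 (l i).2) P ≠ 0}} →
        ∃ Q : MvPolynomial (Fin n ⊕ Fin n) ℂ, Q ≠ 0 ∧
          {i | MvPolynomial.eval (Sum.elim (l i).1 (l i).2) Q ≠ 0} ⊆ ⋂₀ (↑T : Set (Set I)) := by
      intro T
      induction T using Finset.induction_on with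
      | empty => intro _; exact ⟨1, one_ne_zero, by simp⟩
      | insert a T _ ih =>
        intro h
        rw [Finset.coe_insert] at h
        obtain ⟨Q, hQ, hQ'⟩ := ih ((Set.subset_insert _ _).trans h)
        obtain ⟨P, hP0, rfl⟩ := h (Set.mem_insert _ _)
        refine ⟨P * Q, mul_ne_zero hP0 hQ, ?_⟩
        rw [Finset.coe_insert, Set.sInter_insert]
        intro i hi
        simp only [Set.mem_ofPred_eq, map_mul, ne_eq, mul_eq_zero, not_or] at hi
        exact ⟨hi.1, hQ' hi.2⟩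
    obtain ⟨φ, hφ⟩ := Ultrafilter.exists_ultrafilter_of_finite_inter_nonempty
      {s | ∃ P : MvPolynomial (Fin n ⊕ Fin n) ℂ, P ≠ 0 ∧
          s = {i | MvPolynomial.eval (Sum.elim (l i).1 (l i).2) P ≠ 0}} (by
        intro T hT
        obtain ⟨Q, hQ, hQ'⟩ := key T hT
        obtain ⟨i, hi⟩ := hP Q hQ
        exact ⟨i, hQ' hi⟩)
    exact ⟨φ, fun P h0 => hφ ⟨P, h0, rfl⟩⟩
  obtain ⟨φ, hφ⟩ := hS
  refine ⟨GG φ, inferInstance, algGG φ, gl φ l, gc φ W c, gs φ τ, gs φ T, ?_, gc_map φ W c,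
    wval_gl φ W c l hW hV, ?_⟩
  · unfold Gen
    rw [AlgebraicIndependent, injective_iff_map_eq_zero]
    intro P h0
    by_contra hne
    rw [aeval_gl] at h0
    have h1 : (fun i => MvPolynomial.eval (Sum.elim (l i).1 (l i).2) P) =ᶠ[(φ : Filter I)]
        (fun _ => (0 : ℂ)) := Filter.Germ.coe_eq.1 h0
    have h2 := hφ P hne
    have h3 : ∃ i, (fun i => MvPolynomial.eval (Sum.elim (l i).1 (l i).2) P) i = 0 ∧
        i ∈ {i | MvPolynomial.eval (Sum.elim (l i).1 (l i).2) P ≠ 0} :=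
      (h1.and h2).exists
    obtain ⟨i, hi, hi'⟩ := h3
    exact hi' hi
  · rw [endl_gl φ W c l hW]
    exact clc_gl φ _ _ _ _ hC

/-- The lines with a closed chain of constant length lie in a hypersurface. -/
theorem poly_C (hn : 2 ≤ n) {A : Matrix (Fin n) (Fin n) ℝ} (hA : A.transpose * A = 1)
    (b : Fin n → ℝ) {ℓ : ℝ} (hℓ : ℓ ≠ 0) (W : List (Sph n)) (hW : ∀ T ∈ W, 0 < T.ρ) :
    ∃ P : MvPolynomial (Fin n ⊕ Fin n) ℂ, P ≠ 0 ∧
      ∀ (l : Line n ℂ) (c : Ch n ℂ) (τ T : ℂ), c.map Prod.fst = W → WVal c l →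
        ClC A b ℓ l (endl c l) τ T →
        MvPolynomial.eval (Sum.elim l.1 l.2) P = 0 := by
  by_contra hcon
  push Not at hcon
  let I : Type := {q : (Line n ℂ × Ch n ℂ) × (ℂ × ℂ) // q.1.2.map Prod.fst = W ∧
    WVal q.1.2 q.1.1 ∧ ClC A b ℓ q.1.1 (endl q.1.2 q.1.1) q.2.1 q.2.2}
  obtain ⟨F, iF, iA, l', c', τ', T', g1, g2, g3, g4⟩ := germC A b ℓ W I (fun i => i.1.1.1)
    (fun i => i.1.1.2) (fun i => i.1.2.1) (fun i => i.1.2.2)
    (fun i => i.2.1) (fun i => i.2.2.1) (fun i => i.2.2.2) (by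
      intro P hP
      obtain ⟨l, c, τ, T, h1, h2, h3, h4⟩ := hcon P hP
      exact ⟨⟨((l, c), (τ, T)), h1, h2, h3⟩, h4⟩)
  have hWc : ∀ p ∈ c', 0 < p.1.ρ := by
    intro p hp
    apply hW
    rw [← g2]
    exact List.mem_map_of_mem hp
  obtain ⟨c'', k1, k2, k3⟩ := red n F l' (Gen_q hn l' g1) c' hWc g3
  rw [g2] at k3
  exact no_C hn hA hℓ _ (fun T hT => hW T (k3.subset hT)) F l' c'' g1 rfl k1 τ' T'
    (by rw [k2]; exact g4)

end Pool.Agent.TH746.OB
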