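import Pool.Agent.TH746.OB.NoOpen2
import Pool.Agent.TH746.OB.Chain2
import Pool.Agent.TH746.UM.Red

set_option autoImplicit false

open Set Filter Topology Asymptotics
open scoped InnerProductSpace ContDiff
open Pool.Agent.H721R2.Quart Pool.Agent.H721R2.Ivrii

namespace Pool.Agent.TH746.OB

open Pool.Agent.TH746.UM

variable {E Z : Type*} [NormedAddCommGroup E] [InnerProductSpace ℝ E] [FiniteDimensional ℝ E]
  [NormedAddCommGroup Z] [NormedSpace ℝ Z]

/-- The distance of the two points of the closing condition, for a line `y` with final line `s`. -/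
noncomputable def hh (g : E ≃ᵃⁱ[ℝ] E) (ℓ : ℝ) (S : E × E → E × E) (τ : E × E → ℝ) (y : E × E) : E :=
  (S y).1 + (ℓ / ‖y.2‖ - τ y) • (S y).2 - g y.1

/-- The difference of the two velocities of the closing condition. -/
noncomputable def ww (g : E ≃ᵃⁱ[ℝ] E) (S : E × E → E × E) (y : E × E) : E :=
  (S y).2 - g.linearIsometryEquiv y.2

/-- The closing error of the model chain. -/
noncomputable def clo2 (g : E ≃ᵃⁱ[ℝ] E) (ℓ : ℝ) (S : E × E → E × E) (τ : E × E → ℝ)
    (y : E × E) : E :=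
  ⟪ww g S y, ww g S y⟫_ℝ • hh g ℓ S τ y - ⟪hh g ℓ S τ y, ww g S y⟫_ℝ • ww g S y

omit [FiniteDimensional ℝ E] in
theorem clo2_cd {g : E ≃ᵃⁱ[ℝ] E} {ℓ : ℝ} {S : E × E → E × E} {τ : E × E → ℝ} {y : E × E}
    (h : ContDiffAt ℝ ω S y) (hτ : ContDiffAt ℝ ω τ y) (hy : y.2 ≠ 0) :
    ContDiffAt ℝ ω (clo2 g ℓ S τ) y ∧ ContDiffAt ℝ ω (ww g S) y := by
  have hg : ContDiff ℝ ω g := isom_cd g ω
  have hl : ContDiff ℝ ω g.linearIsometryEquiv := g.linearIsometryEquiv.contDiff
  have h1 : ContDiffAt ℝ ω (fun y : E × E => g y.1) y := hg.contDiffAt.comp y contDiffAt_fst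
  have h2 : ContDiffAt ℝ ω (fun y : E × E => g.linearIsometryEquiv y.2) y :=
    hl.contDiffAt.comp y contDiffAt_snd
  have h3 : ContDiffAt ℝ ω (fun y : E × E => ‖y.2‖) y :=
    ContDiffAt.comp (g := fun v : E => ‖v‖) (f := fun y : E × E => y.2) y
      (contDiffAt_norm ℝ hy) contDiffAt_snd
  have h4 : ContDiffAt ℝ ω (hh g ℓ S τ) y :=
    (h.fst.add (((contDiffAt_const.div h3 (norm_ne_zero_iff.2 hy)).sub hτ).smul h.snd)).sub h1
  have h5 : ContDiffAt ℝ ω (ww g S) y := h.snd.sub h2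
  exact ⟨((h5.inner ℝ h5).smul h4).sub ((h4.inner ℝ h5).smul h5), h5⟩

omit [FiniteDimensional ℝ E] in
theorem clo2_zero {g : E ≃ᵃⁱ[ℝ] E} {ℓ : ℝ} {S : E × E → E × E} {τ : E × E → ℝ} {y : E × E}
    (h : clo2 g ℓ S τ y = 0) (hw : ww g S y ≠ 0) :
    ∃ σ : ℝ, g (y.1 + σ • y.2) = (S y).1 + (ℓ / ‖y.2‖ + σ - τ y) • (S y).2 := by
  have hww : ⟪ww g S y, ww g S y⟫_ℝ ≠ 0 := (real_inner_self_pos.2 hw).ne'
  obtain ⟨κ, hκ⟩ : ∃ κ, κ = ⟪hh g ℓ S τ y, ww g S y⟫_ℝ / ⟪ww g S y, ww g S y⟫_ℝ := ⟨_, rfl⟩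
  have h1 : hh g ℓ S τ y = κ • ww g S y := by
    unfold clo2 at h
    have h2 := sub_eq_zero.1 h
    have h3 := congrArg (fun z => (⟪ww g S y, ww g S y⟫_ℝ)⁻¹ • z) h2
    simp only [smul_smul] at h3
    rw [inv_mul_cancel₀ hww, one_smul] at h3
    rw [hκ, div_eq_inv_mul]
    exact h3
  refine ⟨-κ, ?_⟩
  unfold hh at h1
  have h4 : (S y).1 = κ • ww g S y - (ℓ / ‖y.2‖ - τ y) • (S y).2 + g y.1 := by
    rw [← h1]; abel
  rw [isom_eq g (y.1 + -κ • y.2), map_add, map_smul, h4]
  have h5 : g y.1 = g.linearIsometryEquiv y.1 + g 0 := isom_eq g y.1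
  rw [h5]
  unfold ww
  module

/-- The data of a family of trajectories at a point `z0`, which is approached in all directions by
trajectories closed by one more reflection, with mirrors which are spheres and hyperplanes up to a
flat error. -/
theorem red2 {n : ℕ} (hn : 2 ≤ n) {N : ℕ}
    {g : EuclideanSpace ℝ (Fin n) ≃ᵃⁱ[ℝ] EuclideanSpace ℝ (Fin n)}
    {x e ν : ℕ → Z → EuclideanSpace ℝ (Fin n)} {L : ℕ → Z → ℝ} {A : Set Z} {z0 : Z}
    {lam : ℕ → ℝ}
    (hz0 : z0 ∈ A)
    (dx : ∀ k ≤ N, DifferentiableAt ℝ (x k) z0) (de : ∀ k ≤ N, DifferentiableAt ℝ (e k) z0)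
    (dL : ∀ k ≤ N, ContinuousAt (L k) z0) (dν : ∀ k, ContinuousAt (ν k) z0)
    (hLp : ∀ k ≤ N, 0 < L k z0)
    (hx : ∀ k < N, ∀ z, x (k + 1) z = x k z + L k z • e k z)
    (he : ∀ k < N, ∀ z, e (k + 1) z = rf (ν (k + 1) z) (e k z))
    (hν : ∀ k, ∀ z ∈ A, ⟪ν k z, ν k z⟫_ℝ = 1)
    (hee : ∀ z ∈ A, ⟪e 0 z, e 0 z⟫_ℝ = 1)
    (htr : ∀ k < N, ⟪ν (k + 1) z0, e k z0⟫_ℝ ≠ 0) (htr0 : ⟪ν 0 z0, e 0 z0⟫_ℝ ≠ 0)
    (hcx : ∀ z ∈ A, g (x 0 z) = x N z + L N z • e N z)
    (hcw : e N z0 ≠ g.linearIsometryEquiv (e 0 z0))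
    (hlen : ∀ M : ℕ, (fun z => (∑ k ∈ Finset.range (N + 1), L k z) -
      ∑ k ∈ Finset.range (N + 1), L k z0) =O[𝓝 z0] fun z => ‖z - z0‖ ^ M)
    (hm0 : ∀ k < N, ∀ M : ℕ, (fun z => mir (x (k + 1) z0) (ν (k + 1) z0) (lam (k + 1))
      (x (k + 1) z)) =O[𝓝 z0] fun z => ‖z - z0‖ ^ M)
    (hm1 : ∀ k < N, ∀ M : ℕ, (fun z => ν (k + 1) z - (lam (k + 1) • (x (k + 1) z - x (k + 1) z0) +
      ν (k + 1) z0)) =O[𝓝 z0] fun z => ‖z - z0‖ ^ M)
    (hsurj : ∀ Y δ, ⟪ν 0 z0, Y⟫_ℝ = 0 → ⟪e 0 z0, δ⟫_ℝ = 0 →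
      ∃ ζ, fderiv ℝ (x 0) z0 ζ = Y ∧ fderiv ℝ (e 0) z0 ζ = δ)
    (happr : ∀ ζ : Z, ∃ (r : ℕ → ℝ) (y : ℕ → Z), Appr r y z0 ζ ∧ ∀ j, y j ∈ A) : False := by
  obtain ⟨p, hp⟩ : ∃ p : ℕ → EuclideanSpace ℝ (Fin n), p = fun k => x k z0 := ⟨_, rfl⟩
  obtain ⟨u, hu⟩ : ∃ u : ℕ → EuclideanSpace ℝ (Fin n), u = fun k => e k z0 := ⟨_, rfl⟩
  obtain ⟨t, ht⟩ : ∃ t : ℕ → ℝ, t = fun k => L k z0 := ⟨_, rfl⟩
  obtain ⟨m, hm⟩ : ∃ m : ℕ → EuclideanSpace ℝ (Fin n), m = fun k => ν k z0 := ⟨_, rfl⟩
  obtain ⟨ℓ, hℓ⟩ : ∃ ℓ : ℝ, ℓ = ∑ k ∈ Finset.range (N + 1), L k z0 := ⟨_, rfl⟩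
  obtain ⟨G, hG⟩ : ∃ G : ℕ → EuclideanSpace ℝ (Fin n) → ℝ, G = fun k => mir (p k) (m k) (lam k) :=
    ⟨_, rfl⟩
  have hℓ0 : ℓ ≠ 0 := by
    rw [hℓ]
    exact (Finset.sum_pos (fun k hk => hLp k (by have := Finset.mem_range.1 hk; omega))
      ⟨0, Finset.mem_range.2 (by omega)⟩).ne'
  have hGg : ∀ k y, gradient (G k) y = lam k • (y - p k) + m k := by
    intro k y; rw [hG]; exact mir_grad _ _ _ _
  have hGg0 : ∀ k, gradient (G k) (p k) = m k := by
    intro k; rw [hGg, sub_self, smul_zero, zero_add]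
  have hmm : ∀ k, ⟪m k, m k⟫_ℝ = 1 := by intro k; rw [hm]; exact hν k z0 hz0
  have hdirm : ∀ v : EuclideanSpace ℝ (Fin n), ⟪v, v⟫_ℝ = 1 → dir v = v := by
    intro v hv
    have h1 : ‖v‖ = 1 := by
      rw [real_inner_self_eq_norm_sq] at hv
      nlinarith [norm_nonneg v]
    unfold dir
    rw [h1, inv_one, one_smul]
  have hmne : ∀ k, m k ≠ 0 := by
    intro k h
    have := hmm k
    rw [h, inner_zero_left] at this
    exact zero_ne_one this
  obtain ⟨T, s, hs0, hsb, hT, hs1, hsz, hsh⟩ := chain_shadow2 (N := N) (p := p) (u := u) (t := t)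
    (G := G) (fun k _ => by rw [hG]; exact (mir_cd _ _ _ ω).contDiffAt)
    (fun k _ => by rw [hG]; exact mir_self _ _ _)
    (fun k hk => by rw [hGg0, hm, hu]; exact htr k hk)
    (fun k hk => by rw [hp, ht, hu]; exact hx k hk z0)
    (fun k hk => by rw [hGg0, hdirm _ (hmm _), hm, hu]; exact he k hk z0)
  have hu0 : ⟪u 0, u 0⟫_ℝ = 1 := by rw [hu]; exact hee z0 hz0
  have hu0n : u 0 ≠ 0 := by
    intro h; rw [h, inner_zero_left] at hu0; exact zero_ne_one hu0
  have huk : ∀ k ≤ N, ⟪u k, u k⟫_ℝ = 1 := by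
    intro k
    induction k with
    | zero => intro _; exact hu0
    | succ k ih =>
      intro hk
      have h1 := he k (by omega) z0
      have h2 := ih (by omega)
      rw [hu] at h2 ⊢
      simp only at h2 ⊢
      rw [h1, G3_rf_inner (hν (k + 1) z0 hz0), h2]
  have hukn : ∀ k ≤ N, u k ≠ 0 := by
    intro k hk h
    have := huk k hk
    rw [h, inner_zero_left] at this
    exact zero_ne_one this
  obtain ⟨τs, hτs⟩ : ∃ τs : EuclideanSpace ℝ (Fin n) × EuclideanSpace ℝ (Fin n) → ℝ,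
    τs = fun y => ∑ k ∈ Finset.range N, T k (s k y) := ⟨_, rfl⟩
  have hτc : ContDiffAt ℝ ω τs (p 0, u 0) := by
    rw [hτs]
    exact ContDiffAt.sum fun k hk => (hT k (Finset.mem_range.1 hk)).1
  have hcd := clo2_cd (g := g) (ℓ := ℓ) (hsb N le_rfl).1 hτc hu0n
  have hwc : ContinuousAt (ww g (s N)) (p 0, u 0) := hcd.2.continuousAt
  have hw0 : ww g (s N) (p 0, u 0) ≠ 0 := by
    unfold ww
    rw [(hsb N le_rfl).2, hu]
    exact sub_ne_zero.2 hcw
  have hflat : ∀ᶠ y in 𝓝 (p 0, u 0), clo2 g ℓ (s N) τs y = 0 := by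
    refine jet_zero hcd.1.analyticAt ?_
    rintro ⟨h1, h2⟩
    obtain ⟨τ, hτ⟩ : ∃ τ, τ = ⟪m 0, h1⟫_ℝ / ⟪m 0, u 0⟫_ℝ := ⟨_, rfl⟩
    obtain ⟨κ, hκ⟩ : ∃ κ, κ = ⟪u 0, h2⟫_ℝ := ⟨_, rfl⟩
    have hmu : ⟪m 0, u 0⟫_ℝ ≠ 0 := by rw [hm, hu]; exact htr0
    obtain ⟨ζ, hζ1, hζ2⟩ := hsurj (h1 - τ • u 0) (h2 - κ • u 0)
      (by
        have : ⟪m 0, h1 - τ • u 0⟫_ℝ = 0 := by
          rw [inner_sub_right, inner_smul_right, hτ, div_mul_cancel₀ _ hmu, sub_self]
        rw [hm] at this
        exact this)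
      (by
        have : ⟪u 0, h2 - κ • u 0⟫_ℝ = 0 := by
          rw [inner_sub_right, inner_smul_right, hκ, hu0, mul_one, sub_self]
        rw [hu] at this ⊢
        exact this)
    obtain ⟨r, z, hA, hzA⟩ := happr ζ
    have hzt := hA.tendsto
    obtain ⟨c, hc⟩ : ∃ c : ℕ → ℝ, c = fun i => Real.exp (r i * κ) := ⟨_, rfl⟩
    have hcp : ∀ i, 0 < c i := fun i => by rw [hc]; exact Real.exp_pos _
    have hct : Tendsto c atTop (𝓝 1) := by
      rw [hc]
      have h3 := (Real.continuous_exp.tendsto (0 * κ)).comp (hA.2.1.mul_const κ)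
      rw [zero_mul, Real.exp_zero] at h3
      exact h3
    have hcr : Tendsto (fun i => (r i)⁻¹ * (c i - 1)) atTop (𝓝 κ) := by
      have h3 : HasDerivAt (fun r : ℝ => Real.exp (r * κ)) (Real.exp (0 * κ) * (1 * κ)) 0 :=
        ((hasDerivAt_id (0 : ℝ)).mul_const κ).exp
      rw [zero_mul, Real.exp_zero, one_mul, one_mul] at h3
      have h4 := h3.tendsto_slope_zero_right
      have h5 : Tendsto r atTop (𝓝[>] 0) :=
        tendsto_nhdsWithin_iff.2 ⟨hA.2.1, Eventually.of_forall hA.1⟩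
      refine (h4.comp h5).congr fun i => ?_
      simp only [Function.comp_apply, zero_add, zero_mul, Real.exp_zero, smul_eq_mul]
      rw [hc]
    obtain ⟨y, hy⟩ : ∃ y : ℕ → EuclideanSpace ℝ (Fin n) × EuclideanSpace ℝ (Fin n),
      y = fun i => (x 0 (z i) + (r i * τ) • e 0 (z i), c i • e 0 (z i)) := ⟨_, rfl⟩
    have tx : ∀ k ≤ N, Tendsto (fun i => x k (z i)) atTop (𝓝 (p k)) := by
      intro k hk
      rw [hp]
      exact (dx k hk).continuousAt.tendsto.comp hzt
    have te : ∀ k ≤ N, Tendsto (fun i => e k (z i)) atTop (𝓝 (u k)) := by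
      intro k hk
      rw [hu]
      exact (de k hk).continuousAt.tendsto.comp hzt
    have tL : ∀ k ≤ N, Tendsto (fun i => L k (z i)) atTop (𝓝 (t k)) := by
      intro k hk
      rw [ht]
      exact (dL k hk).tendsto.comp hzt
    have tν : ∀ k, Tendsto (fun i => ν k (z i)) atTop (𝓝 (m k)) := by
      intro k
      rw [hm]
      exact (dν k).tendsto.comp hzt
    have hyA : Appr r y (p 0, u 0) (h1, h2) := by
      refine ⟨hA.1, hA.2.1, ?_⟩
      have h3 := (hA.map (dx 0 (Nat.zero_le _))).add ((te 0 (Nat.zero_le _)).const_smul τ)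
      rw [hζ1, sub_add_cancel] at h3
      have h4 := ((hct.smul_const (1 : ℝ)).smul (hA.map (de 0 (Nat.zero_le _)))).add
        (hcr.smul_const (u 0))
      rw [hζ2, one_smul, one_smul, sub_add_cancel] at h4
      refine (h3.prodMk_nhds h4).congr fun i => ?_
      have hri := (hA.1 i).ne'
      rw [hy]
      refine Prod.ext ?_ ?_
      · change (r i)⁻¹ • (x 0 (z i) - x 0 z0) + τ • e 0 (z i) =
          (r i)⁻¹ • (x 0 (z i) + (r i * τ) • e 0 (z i) - p 0)
        have e1 : x 0 (z i) + (r i * τ) • e 0 (z i) - p 0 =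
          (x 0 (z i) - x 0 z0) + r i • (τ • e 0 (z i)) := by rw [hp]; module
        rw [e1, smul_add, smul_smul (r i)⁻¹ (r i), inv_mul_cancel₀ hri, one_smul]
      · change (c i • (1 : ℝ)) • ((r i)⁻¹ • (e 0 (z i) - e 0 z0)) + ((r i)⁻¹ * (c i - 1)) • u 0 =
          (r i)⁻¹ • (c i • e 0 (z i) - u 0)
        rw [hu, smul_eq_mul, mul_one]
        module
    have hyt := hyA.tendsto
    refine ⟨r, y, hyA, fun M => ?_⟩
    -- the shifted trajectories
    obtain ⟨X, hX0, hXk⟩ : ∃ X : ℕ → ℕ → EuclideanSpace ℝ (Fin n), (X 0 = fun i => (y i).1) ∧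
        ∀ k, X (k + 1) = fun i => x (k + 1) (z i) :=
      ⟨fun k => Nat.casesOn k (fun i => (y i).1) (fun k i => x (k + 1) (z i)), rfl, fun k => rfl⟩
    obtain ⟨LL, hL0, hLk⟩ : ∃ LL : ℕ → ℕ → ℝ,
        (LL 0 = fun i => (L 0 (z i) - r i * τ) / c i) ∧
        ∀ k, LL (k + 1) = fun i => L (k + 1) (z i) / c i :=
      ⟨fun k => Nat.casesOn k (fun i => (L 0 (z i) - r i * τ) / c i)
        (fun k i => L (k + 1) (z i) / c i), rfl, fun k => rfl⟩
    have hzr : ∀ M : ℕ, (fun i => ‖z i - z0‖ ^ M) =O[atTop] fun i => r i ^ M := fun M =>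
      hA.bigO.norm_left.pow M
    have hyt1 : Tendsto (fun i => (y i).1) atTop (𝓝 (p 0)) :=
      (continuous_fst.tendsto (p 0, u 0)).comp hyt
    have tX : ∀ k ≤ N, Tendsto (X k) atTop (𝓝 (p k)) := by
      intro k hk
      cases k with
      | zero => rw [hX0]; exact hyt1
      | succ k => rw [hXk]; exact tx (k + 1) hk
    have tV : ∀ k ≤ N, Tendsto (fun i => c i • e k (z i)) atTop (𝓝 (u k)) := by
      intro k hk
      have := hct.smul (te k hk)
      rwa [one_smul] at this
    have tLL : ∀ k < N, Tendsto (LL k) atTop (𝓝 (t k)) := by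
      intro k hk
      cases k with
      | zero =>
        rw [hL0]
        have h3 := ((tL 0 hk.le).sub (hA.2.1.mul_const τ)).div hct one_ne_zero
        rwa [zero_mul, sub_zero, div_one] at h3
      | succ k =>
        rw [hLk]
        have h3 := (tL (k + 1) hk.le).div hct one_ne_zero
        rwa [div_one] at h3
    have hXstep : ∀ k < N, ∀ i, X (k + 1) i = X k i + LL k i • (c i • e k (z i)) := by
      intro k hk i
      have hci := (hcp i).ne'
      cases k with
      | zero =>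
        rw [hXk, hX0, hL0, hy]
        simp only
        rw [hx 0 hk, smul_smul, div_mul_cancel₀ _ hci]
        module
      | succ k =>
        rw [hXk, hXk, hLk]
        simp only
        rw [hx (k + 1) hk, smul_smul, div_mul_cancel₀ _ hci]
    have main := hsh (fun i => r i ^ M) X (fun k i => c i • e k (z i)) LL y tX tV tLL hyt
      (by
        rw [hX0]
        have h3 : (fun i => ((y i).1, c i • e 0 (z i)) - y i) = fun _ => 0 := by
          funext i
          rw [hy]
          simp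
        rw [h3]
        exact isBigO_zero _ _) hXstep
      (by
        intro k hk
        rw [hXk]
        have h3 := (hm0 k hk M).comp_tendsto hzt
        have h4 := h3.trans (hzr M)
        rw [hG, hp, hm]
        exact h4)
      (by
        intro k hk
        rw [hXk]
        have h3 := ((hm1 k hk M).comp_tendsto hzt).trans (hzr M)
        have tg : Tendsto (fun i => gradient (G (k + 1)) (x (k + 1) (z i))) atTop
            (𝓝 (m (k + 1))) := by
          have h5 : ContinuousAt (gradient (G (k + 1))) (p (k + 1)) := by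
            have h6 : gradient (G (k + 1)) = fun y => lam (k + 1) • (y - p (k + 1)) + m (k + 1) :=
              funext (hGg (k + 1))
            rw [h6]
            fun_prop
          have h7 := h5.tendsto.comp (tx (k + 1) hk)
          rw [hGg0] at h7
          exact h7
        have h4 : (fun i => dir (ν (k + 1) (z i)) - dir (gradient (G (k + 1)) (x (k + 1) (z i))))
            =O[atTop] fun i => r i ^ M := by
          refine bigO_comp (cd_dir (hmne (k + 1))) (tν (k + 1)) tg ?_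
          refine h3.congr_left fun i => ?_
          simp only [Function.comp_apply]
          rw [hGg, hp, hm]
        have h8 : (fun i => rf (ν (k + 1) (z i)) (e k (z i)) -
            rf (dir (gradient (G (k + 1)) (x (k + 1) (z i)))) (e k (z i))) =O[atTop]
            fun i => r i ^ M := by
          have hΦ : ContDiffAt ℝ 1
              (fun w : EuclideanSpace ℝ (Fin n) × EuclideanSpace ℝ (Fin n) => rf w.1 w.2)
              (m (k + 1), u k) := cd_rf contDiffAt_fst contDiffAt_snd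
          have h9 : Tendsto (fun i => dir (gradient (G (k + 1)) (x (k + 1) (z i)))) atTop
              (𝓝 (m (k + 1))) := by
            have h10 := ((cd_dir (n := 1) (hmne (k + 1))).continuousAt).tendsto.comp tg
            rw [hdirm _ (hmm _)] at h10
            exact h10
          refine bigO_comp hΦ ((tν (k + 1)).prodMk_nhds (te k hk.le))
            (h9.prodMk_nhds (te k hk.le)) ?_
          have h11 : (fun i => ((ν (k + 1) (z i), e k (z i)) : EuclideanSpace ℝ (Fin n) ×
              EuclideanSpace ℝ (Fin n)) -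
              (dir (gradient (G (k + 1)) (x (k + 1) (z i))), e k (z i))) =
              fun i => (dir (ν (k + 1) (z i)) -
                dir (gradient (G (k + 1)) (x (k + 1) (z i))), 0) := by
            funext i
            rw [hdirm _ (hν (k + 1) _ (hzA i))]
            simp
          rw [h11]
          exact h4.prod_left (isBigO_zero _ _)
        have h12 := (hct.isBigO_one ℝ).smul h8
        simp only [smul_eq_mul, one_mul] at h12
        refine h12.congr_left fun i => ?_
        rw [he k hk, G3_rf_smul, smul_sub])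
    have mpos : ∀ k ≤ N, (fun i => X k i - (s k (y i)).1) =O[atTop] fun i => r i ^ M := fun k hk =>
      IsBigO.trans (isBigO_fst_prod (l := atTop) (f' := fun i => X k i - (s k (y i)).1)
        (g' := fun i => c i • e k (z i) - (s k (y i)).2)) (main k hk)
    have mvel : ∀ k ≤ N, (fun i => c i • e k (z i) - (s k (y i)).2) =O[atTop] fun i => r i ^ M :=
      fun k hk => IsBigO.trans (isBigO_snd_prod (l := atTop)
        (f' := fun i => X k i - (s k (y i)).1)
        (g' := fun i => c i • e k (z i) - (s k (y i)).2)) (main k hk)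
    have mtime : ∀ k < N, (fun i => LL k i - T k (s k (y i))) =O[atTop] fun i => r i ^ M := by
      intro k hk
      refine time_shadow (hukn k hk.le) (tV k hk.le)
        ((hT k hk).1.continuousAt.tendsto.comp hyt) (hXstep k hk)
        (Y' := fun i => (s (k + 1) (y i)).1) (fun i => by rw [hs1 k hk])
        (mpos k hk.le) (mpos (k + 1) hk) (mvel k hk.le)
    have msum : (fun i => (∑ k ∈ Finset.range N, LL k i) - τs (y i)) =O[atTop]
        fun i => r i ^ M := by
      rw [hτs]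
      have h3 : (fun i => (∑ k ∈ Finset.range N, LL k i) -
          ∑ k ∈ Finset.range N, T k (s k (y i))) =
          ∑ k ∈ Finset.range N, fun i => (LL k i - T k (s k (y i))) := by
        funext i
        rw [Finset.sum_apply, Finset.sum_sub_distrib]
      rw [h3]
      exact IsBigO.sum fun k hk => mtime k (Finset.mem_range.1 hk)
    -- the closing error
    have hyn : ∀ i, ‖(y i).2‖ = c i := by
      intro i
      have h3 : ‖e 0 (z i)‖ = 1 := by
        have h4 := hee (z i) (hzA i)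
        rw [real_inner_self_eq_norm_sq] at h4
        nlinarith [norm_nonneg (e 0 (z i))]
      rw [hy]
      simp only
      rw [norm_smul, h3, mul_one, Real.norm_eq_abs, abs_of_pos (hcp i)]
    have hXN : ∀ i, X N i - (c i * ∑ k ∈ Finset.range N, LL k i) • e N (z i) =
        x N (z i) - (∑ k ∈ Finset.range N, L k (z i)) • e N (z i) + (r i * τ) • e N (z i) := by
      intro i
      have hci := (hcp i).ne'
      rcases Nat.eq_zero_or_pos N with h0 | h0
      · subst h0
        rw [hX0, Finset.sum_range_zero, Finset.sum_range_zero, hy]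
        simp only
        module
      · obtain ⟨M', rfl⟩ : ∃ M', N = M' + 1 := ⟨N - 1, by omega⟩
        rw [hXk, Finset.sum_range_succ', Finset.sum_range_succ', hL0]
        simp only [hLk]
        have h3 : c i * (∑ k ∈ Finset.range M', L (k + 1) (z i) / c i +
            (L 0 (z i) - r i * τ) / c i) =
            ∑ k ∈ Finset.range M', L (k + 1) (z i) + L 0 (z i) - r i * τ := by
          rw [← Finset.sum_div]
          field_simp
          ring
        rw [h3]
        module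
    have hgy : ∀ i, g (y i).1 = g (x 0 (z i)) + (r i * τ) • g.linearIsometryEquiv (e 0 (z i)) := by
      intro i
      rw [hy]
      simp only
      rw [isom_eq g (x 0 (z i) + (r i * τ) • e 0 (z i)), isom_eq g (x 0 (z i)), map_add,
        map_smul]
      abel
    have hlen' : (fun i => ℓ - ∑ k ∈ Finset.range (N + 1), L k (z i)) =O[atTop]
        fun i => r i ^ M := by
      have h3 := ((hlen M).comp_tendsto hzt).trans (hzr M)
      refine h3.neg_left.congr_left fun i => ?_
      simp only [Function.comp_apply]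
      rw [hℓ]
      ring
    have hvb : (fun i => c i • e N (z i)) =O[atTop] (fun _ => (1 : ℝ)) :=
      (tV N le_rfl).isBigO_one ℝ
    have heb : (fun i => e N (z i)) =O[atTop] (fun _ => (1 : ℝ)) := (te N le_rfl).isBigO_one ℝ
    have tτ : Tendsto (fun i => τs (y i)) atTop (𝓝 (τs (p 0, u 0))) :=
      hτc.continuousAt.tendsto.comp hyt
    have tκ : Tendsto (fun i => r i * τ / c i) atTop (𝓝 0) := by
      have h3 := (hA.2.1.mul_const τ).div hct one_ne_zero
      rwa [zero_mul, zero_div] at h3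
    have hcb : (fun i => ℓ / c i - τs (y i) - r i * τ / c i) =O[atTop] (fun _ => (1 : ℝ)) := by
      have h3 : Tendsto (fun i => ℓ / c i) atTop (𝓝 (ℓ / 1)) :=
        tendsto_const_nhds.div hct one_ne_zero
      exact ((h3.sub tτ).sub tκ).isBigO_one ℝ
    have hD : (fun i => hh g ℓ (s N) τs (y i) - (r i * τ / c i) • ww g (s N) (y i)) =O[atTop]
        fun i => r i ^ M := by
      have b1 := (mpos N le_rfl).neg_left
      have b2 := hcb.smul ((mvel N le_rfl).neg_left)
      have b3 := msum.smul hvb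
      have b4 := hlen'.smul heb
      simp only [smul_eq_mul, mul_one, one_mul] at b2 b3 b4
      refine (((b1.add b2).add b3).add b4).congr_left fun i => ?_
      have hci := (hcp i).ne'
      have k1 := hXN i
      have k2 := hcx (z i) (hzA i)
      have k3 : (y i).2 = c i • e 0 (z i) := by rw [hy]
      unfold hh ww
      rw [hyn, hgy, k2, k3, map_smul]
      have k4 : X N i = (c i * ∑ k ∈ Finset.range N, LL k i) • e N (z i) +
          (x N (z i) - (∑ k ∈ Finset.range N, L k (z i)) • e N (z i) +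
            (r i * τ) • e N (z i)) := by rw [← k1]; abel
      rw [k4, Finset.sum_range_succ]
      have k5 : (ℓ / c i - τs (y i) - r i * τ / c i) • (c i • e N (z i)) =
          (ℓ - c i * τs (y i) - r i * τ) • e N (z i) := by
        rw [smul_smul]
        congr 1
        field_simp
      have k6 : (r i * τ / c i) • (c i • g.linearIsometryEquiv (e 0 (z i))) =
          (r i * τ) • g.linearIsometryEquiv (e 0 (z i)) := by
        rw [smul_smul]
        congr 1
        field_simp
      generalize g.linearIsometryEquiv (e 0 (z i)) = ge at k6 ⊢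
      generalize ∑ k ∈ Finset.range N, LL k i = SL at ⊢
      generalize ∑ k ∈ Finset.range N, L k (z i) = SS at ⊢
      generalize (s N (y i)).1 = S1 at ⊢
      generalize (s N (y i)).2 = S2 at ⊢
      rw [smul_neg, smul_sub (ℓ / c i - τs (y i) - r i * τ / c i), k5, smul_sub (r i * τ / c i), k6]
      module
    have hwb : (fun i => ww g (s N) (y i)) =O[atTop] (fun _ => (1 : ℝ)) :=
      (hwc.tendsto.comp hyt).isBigO_one ℝ
    have b1 : (fun i => ⟪ww g (s N) (y i), ww g (s N) (y i)⟫_ℝ) =O[atTop] (fun _ => (1 : ℝ)) :=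
      ((hwc.tendsto.comp hyt).inner (hwc.tendsto.comp hyt)).isBigO_one ℝ
    have b2 := b1.smul hD
    have b3 : (fun i => ⟪hh g ℓ (s N) τs (y i) - (r i * τ / c i) • ww g (s N) (y i),
        ww g (s N) (y i)⟫_ℝ) =O[atTop] fun i => r i ^ M * 1 := by
      refine IsBigO.trans (IsBigO.of_bound 1 (Eventually.of_forall fun i => ?_))
        (hD.norm_left.mul hwb.norm_left)
      rw [one_mul, Real.norm_eq_abs, norm_mul, norm_norm, norm_norm]
      exact abs_real_inner_le_norm _ _
    have b4 := b3.smul hwb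
    simp only [smul_eq_mul, mul_one, one_mul] at b2 b4
    refine (b2.sub b4).congr_left fun i => ?_
    unfold clo2
    generalize hh g ℓ (s N) τs (y i) = H
    generalize ww g (s N) (y i) = W
    rw [inner_sub_left, real_inner_smul_left]
    module
  refine no_open2 hn hℓ0 hmm hu0 hs0 (fun k hk y => by rw [hs1 k hk y, hG]) (fun k hk => by
      have := hsz k hk
      rw [hG] at this
      exact this) (g := g) ?_
  filter_upwards [hflat, hwc.eventually_ne hw0] with y hy hwy
  obtain ⟨σ, hσ⟩ := clo2_zero hy hwy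
  rw [hτs] at hσ
  exact ⟨σ, hσ⟩

end Pool.Agent.TH746.OB
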