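import Pool.Agent.TH746.OB.BackC
import Pool.Agent.W567.IV.Spec
import Pool.Agent.W40.IV.Gen
import Pool.Agent.W12.IV.Alg

/-! Special generic chains for which the square of the velocity is not a square. -/

set_option autoImplicit false

open scoped Classical

set_option linter.unusedSectionVars false

namespace Pool.Agent.TH746.OB

open Pool.Agent.W567.IV

variable {n : ℕ}

/-- a linear form is not a square in the field of rational functions -/
lemma lin_nonsq {σ : Type} (p : MvPolynomial σ ℂ) (hp : p.IsHomogeneous 1) (h0 : p ≠ 0)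
    (g : FractionRing (MvPolynomial σ ℂ)) :
    g ^ 2 ≠ algebraMap (MvPolynomial σ ℂ) (FractionRing (MvPolynomial σ ℂ)) p := by
  intro h
  obtain ⟨y, hy⟩ := IsIntegrallyClosed.exists_algebraMap_eq_of_isIntegral_pow
    (R := MvPolynomial σ ℂ) (x := g) two_pos (by rw [h]; exact isIntegral_algebraMap)
  rw [← hy, ← map_pow] at h
  have h1 : y ^ 2 = p := IsFractionRing.injective _ _ h
  have hy0 : y ≠ 0 := by
    rintro rfl
    apply h0
    rw [← h1]; simp
  have h2 := hp.totalDegree h0
  rw [← h1, sq, MvPolynomial.totalDegree_mul_of_isDomain hy0 hy0] at h2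
  omega

/-- non-squares of even order -/
lemma nonsq_even {L : Type} [Field L] {y : LaurentSeries L} {a : L} (h : Eqv y a)
    (ha : ∀ b : L, b ^ 2 ≠ a) (g : LaurentSeries L) : g ^ 2 ≠ kap ^ 2 * y := by
  intro e
  have ha0 : a ≠ 0 := by
    intro h0
    apply ha 0
    rw [h0]; simp
  have hy : y ≠ 0 := h.ne ha0
  have hk : (kap : LaurentSeries L) ≠ 0 := kap_ne
  obtain ⟨f, hf⟩ : ∃ f, f = g / kap := ⟨_, rfl⟩
  have h1 : f * f = y := by
    rw [hf]
    field_simp
    linear_combination e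
  have hf0 : f ≠ 0 := by
    rintro rfl
    rw [mul_zero] at h1
    exact hy h1.symm
  have hyo : y.order = 0 := by
    apply le_antisymm
    · apply HahnSeries.order_le_of_coeff_ne_zero
      rw [eqv_coeff h]; exact ha0
    · by_contra hlt
      push Not at hlt
      have h5 := neg_coeff h.mem _ hlt
      exact hy (HahnSeries.coeff_order_eq_zero.mp h5)
  have h2 : f.order + f.order = 0 := by
    rw [← HahnSeries.order_mul hf0 hf0, h1, hyo]
  have h3 : f.order = 0 := by omega
  have h4 := HahnSeries.coeff_mul_order_add_order f f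
  rw [h1, h3, add_zero, eqv_coeff h] at h4
  apply ha f.leadingCoeff
  rw [sq, ← h4]

theorem spec_q (hn : 2 ≤ n) (W : List (Sph n)) (hW : ∀ T ∈ W, 0 < T.ρ) :
    ∃ (F : Type) (_ : Field F) (_ : Algebra ℂ F) (l : Line n F) (c : Ch n F),
      Gen l ∧ c.map Prod.fst = W ∧ Val c l ∧ (∀ g : F, g ^ 2 ≠ l.2 ⬝ᵥ l.2) := by
  have hsq : S_sqrt := W12.IV.sqrt_
  have htr : S_tr := W12.IV.tr
  -- a dummy centre
  obtain ⟨O, hO⟩ : ∃ O : Fin n → ℝ, ∀ T ∈ W, T.O ≠ O := by
    have hfin : (Set.range fun i : Fin W.length => (W.get i).O).Finite := Set.finite_range _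
    have hinf : (Set.univ : Set (Fin n → ℝ)).Infinite := by
      have : Nonempty (Fin n) := ⟨⟨0, by omega⟩⟩
      exact Set.infinite_univ
    obtain ⟨O, -, hO⟩ := hinf.exists_notMem_finite hfin
    refine ⟨O, fun T hT h => hO ?_⟩
    obtain ⟨i, hi⟩ := List.get_of_mem hT
    exact ⟨i, by simp only [hi, h]⟩
  let C : List (Fin n → ℝ) := O :: W.map (fun T => T.O)
  obtain ⟨w, w', hww, hww', hw2, hsep⟩ := W12.IV.w_ n hn
    (C.flatMap (fun a => (C.filter (fun b => a ≠ b)).map (fun b k => a k - b k))) (by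
      intro c hc
      rw [List.mem_flatMap] at hc
      obtain ⟨T, _, hc⟩ := hc
      rw [List.mem_map] at hc
      obtain ⟨T', hT', rfl⟩ := hc
      rw [List.mem_filter] at hT'
      have h2 := hT'.2
      simp only [ne_eq, decide_not, Bool.not_eq_eq_eq_not, Bool.not_true, decide_eq_false_iff_not]
        at h2
      intro h0
      apply h2
      funext k
      have := congrFun h0 k
      simp only [Pi.zero_apply] at this
      linarith)
  let L : Type := FractionRing (MvPolynomial (Fin n ⊕ Fin n) ℂ)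
  let a : Fin n ⊕ Fin n → L := fun i =>
    algebraMap (MvPolynomial (Fin n ⊕ Fin n) ℂ) L (MvPolynomial.X i)
  have hcz : CharZero L := charZero_of_injective_algebraMap (algebraMap ℂ L).injective
  let wL : Fin n → L := fun k => algebraMap ℂ L (w k)
  let A : Set (Fin n → ℝ) := {x | x ∈ C}
  have hA : Sep wL A := by
    rintro a ha b hb hab
    have h1 := hsep (fun k => a k - b k) (by
      rw [List.mem_flatMap]
      refine ⟨a, ha, ?_⟩
      rw [List.mem_map]
      refine ⟨b, ?_, rfl⟩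
      rw [List.mem_filter]
      exact ⟨hb, by simpa using hab⟩)
    have h2 : (cv L a - cv L b) ⬝ᵥ wL =
        algebraMap ℂ L ((fun i => (((a i - b i : ℝ)) : ℂ)) ⬝ᵥ w) := by
      simp only [dotProduct, map_sum, map_mul, Pi.sub_apply, cv, wL]
      refine Finset.sum_congr rfl (fun k _ => ?_)
      rw [Complex.ofReal_sub, map_sub]
    rw [h2]
    rw [Ne, FaithfulSMul.algebraMap_eq_zero_iff]
    exact h1
  -- the special line
  let P : Fin n ⊕ Fin n → Polynomial ℂ := Sum.elim
    (fun k => Polynomial.C ((O k : ℝ) : ℂ)) (fun k => Polynomial.C (w k))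
  have hgen2 := W40.IV.aux (ι := Fin n ⊕ Fin n) L P 2
  let l : Line n (LaurentSeries L) :=
    (fun k => cv (LaurentSeries L) O k + kap ^ 2 * HahnSeries.C (a (Sum.inl k)),
     fun k => algebraMap ℂ (LaurentSeries L) (w k) + kap ^ 2 * HahnSeries.C (a (Sum.inr k)))
  have hGl : Gen l := by
    unfold Gen
    convert hgen2 using 1
    · funext i
      cases i with
      | inl k => simp only [Sum.elim_inl, P, Polynomial.aeval_C, l, cv, a]; rfl
      | inr k => simp only [Sum.elim_inr, P, Polynomial.aeval_C, l, a]; rfl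
    · rfl
  let W1 : Fin n → LaurentSeries L := fun k => algebraMap ℂ (LaurentSeries L) (w k)
  let a1 : Fin n → LaurentSeries L := fun k => HahnSeries.C (a (Sum.inl k))
  let a2 : Fin n → LaurentSeries L := fun k => HahnSeries.C (a (Sum.inr k))
  have hl1 : l.1 - cv (LaurentSeries L) O = ((kap : LaurentSeries L) ^ 2) • a1 := by
    funext k
    simp only [l, Pi.sub_apply, Pi.smul_apply, smul_eq_mul, a1]
    ring
  have hl2 : l.2 = W1 + ((kap : LaurentSeries L) ^ 2) • a2 := by
    funext k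
    simp only [l, Pi.add_apply, Pi.smul_apply, smul_eq_mul, a2, W1]
  have hW11 : W1 ⬝ᵥ W1 = 0 := by
    have : W1 ⬝ᵥ W1 = algebraMap ℂ (LaurentSeries L) (w ⬝ᵥ w) := by
      simp only [dotProduct, W1, map_sum, map_mul]
    rw [this, hww]; exact map_zero _
  have hmW1 : ∀ k, W1 k ∈ OO L := fun k => (eqv_alg (w k)).mem
  have hma1 : ∀ k, a1 k ∈ OO L := fun k => C_mem _
  have hma2 : ∀ k, a2 k ∈ OO L := fun k => C_mem _
  have h2m : (2 : LaurentSeries L) ∈ OO L := by
    have := (eqv_alg (L := L) 2).mem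
    rwa [map_ofNat] at this
  have hqq : l.2 ⬝ᵥ l.2 = kap ^ 2 * (2 * (W1 ⬝ᵥ a2) + kap ^ 2 * (a2 ⬝ᵥ a2)) := by
    rw [hl2]
    simp only [add_dotProduct, dotProduct_add, smul_dotProduct, dotProduct_smul, smul_eq_mul]
    rw [dotProduct_comm a2 W1, hW11]
    ring
  -- the leading coefficient
  let p : MvPolynomial (Fin n ⊕ Fin n) ℂ :=
    ∑ k : Fin n, MvPolynomial.C (2 * w k) * MvPolynomial.X (Sum.inr k)
  have hph : p.IsHomogeneous 1 := by
    refine MvPolynomial.IsHomogeneous.sum _ _ _ fun k _ => ?_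
    have := (MvPolynomial.isHomogeneous_C (Fin n ⊕ Fin n) (2 * w k)).mul
      (MvPolynomial.isHomogeneous_X ℂ (Sum.inr k : Fin n ⊕ Fin n))
    simpa using this
  have hp0 : p ≠ 0 := by
    intro h0
    have h1 := congrArg (MvPolynomial.eval (Sum.elim (fun _ => 0) w' : Fin n ⊕ Fin n → ℂ)) h0
    have h2 : ∑ k : Fin n, w k * w' k = 2 := hw2
    simp only [p, map_sum, map_mul, MvPolynomial.eval_C, MvPolynomial.eval_X, Sum.elim_inr,
      map_zero] at h1
    have h3 : ∑ k : Fin n, 2 * w k * w' k = 2 * ∑ k : Fin n, w k * w' k := by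
      rw [Finset.mul_sum]
      exact Finset.sum_congr rfl fun k _ => by ring
    rw [h3, h2] at h1
    norm_num at h1
  let cc : L := algebraMap (MvPolynomial (Fin n ⊕ Fin n) ℂ) L p
  have hccs : ∀ b : L, b ^ 2 ≠ cc := lin_nonsq p hph hp0
  have hcc0 : cc ≠ 0 := by
    intro h0
    apply hccs 0
    rw [h0]; simp
  have hccd : Eqv (2 * (W1 ⬝ᵥ a2)) cc := by
    have h1 : Eqv (W1 ⬝ᵥ a2) (wL ⬝ᵥ (fun k => a (Sum.inr k))) :=
      eqv_dot (fun k => eqv_alg (w k)) (fun k => eqv_C _)
    have h2 : Eqv (2 : LaurentSeries L) (2 : L) := by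
      have := eqv_alg (L := L) 2
      rwa [map_ofNat, map_ofNat] at this
    have h3 := h2.mul h1
    have h4 : (2 : L) * (wL ⬝ᵥ (fun k => a (Sum.inr k))) = cc := by
      simp only [cc, p, map_sum, map_mul, dotProduct, wL, a]
      rw [Finset.mul_sum]
      refine Finset.sum_congr rfl fun k _ => ?_
      simp only [← MvPolynomial.algebraMap_eq, ← IsScalarTower.algebraMap_apply, map_ofNat]
      ring
    rwa [h4] at h3
  have hq' : Eqv (2 * (W1 ⬝ᵥ a2) + kap ^ 2 * (a2 ⬝ᵥ a2)) cc := by
    have h1 := hccd.add (eqv_kap_pow_mul (m := 2) (mem_dot hma2 hma2) (by norm_num))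
    rwa [add_zero] at h1
  have hPre : PreC cc wL O 0 1 l := by
    refine ⟨one_ne_zero, ?_, ?_, ?_, ?_, ⟨_, hqq, hq'⟩⟩
    · intro k
      rw [hl2, pow_zero, one_mul, one_mul]
      simp only [Pi.add_apply, Pi.smul_apply, smul_eq_mul]
      have h1 := (eqv_alg (L := L) (w k)).add (eqv_kap_pow_mul (m := 2) (hma2 k) (by norm_num))
      rwa [add_zero] at h1
    · rw [pow_zero, one_mul, hl1, smul_dotProduct, smul_eq_mul]
      refine eqv_kap_pow_mul (m := 2) ?_ (by norm_num)
      rw [hl2]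
      simp only [dotProduct_add, dotProduct_smul, smul_eq_mul]
      exact (OO L).add_mem (mem_dot hma1 hmW1)
        ((OO L).mul_mem (kap_pow_mem 2) (mem_dot hma1 hma2))
    · intro k
      rw [hl1]
      simp only [Pi.smul_apply, smul_eq_mul]
      exact (OO L).mul_mem (kap_pow_mem _) ((OO L).mul_mem (kap_pow_mem _) (hma1 k))
    · rw [hl1]
      simp only [dotProduct_smul, smul_dotProduct, smul_eq_mul]
      exact (OO L).mul_mem (kap_pow_mem _) ((OO L).mul_mem (kap_pow_mem _) (mem_dot hma1 hma1))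
  obtain ⟨c, l0, g1, g2, g3⟩ := back_preC hsq hcc0 wL A hA W
    (fun T hT => ⟨hW T hT, List.mem_cons_of_mem _ (List.mem_map_of_mem hT)⟩) O
    List.mem_cons_self hO 0 1 l hPre
  have hGl0 : Gen l0 := Gen_of_end htr c l0 g2 (by rw [g3]; exact hGl)
  refine ⟨LaurentSeries L, inferInstance, inferInstance, l0, c, hGl0, g1, g2, ?_⟩
  intro g
  have hWc : ∀ q ∈ c, 0 < q.1.ρ := by
    intro q hq
    apply hW
    rw [← g1]; exact List.mem_map_of_mem hq
  have h1 := endl_q c l0 hWc (Gen_q hn l0 hGl0) g2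
  rw [g3, hqq] at h1
  rw [← h1]
  exact nonsq_even hq' hccs g

end Pool.Agent.TH746.OB
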